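import Pool.Agent.Y160.SQ.Defs

/-!
# Superelliptic curves: basic facts about the coordinate ring, the twist and the changes of constants
-/

set_option autoImplicit false
set_option linter.all false

open Polynomial
open scoped nonZeroDivisors

namespace Pool.Agent.Y160.SQ

universe u v w

section ext

variable {ℓ : ℕ} {E : Type u} [CommRing E] {f : E[X]}

theorem xp_mul (p q : E[X]) : xp ℓ f (p * q) = xp ℓ f p * xp ℓ f q := (AdjoinRoot.of _).map_mul p q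

theorem xp_add (p q : E[X]) : xp ℓ f (p + q) = xp ℓ f p + xp ℓ f q := (AdjoinRoot.of _).map_add p q

theorem xp_sub (p q : E[X]) : xp ℓ f (p - q) = xp ℓ f p - xp ℓ f q := (AdjoinRoot.of _).map_sub p q

theorem xp_neg (p : E[X]) : xp ℓ f (-p) = -xp ℓ f p := (AdjoinRoot.of _).map_neg p

theorem xp_pow (p : E[X]) (n : ℕ) : xp ℓ f (p ^ n) = xp ℓ f p ^ n := (AdjoinRoot.of _).map_pow p n

@[simp] theorem xp_one : xp ℓ f 1 = 1 := (AdjoinRoot.of _).map_one

@[simp] theorem xp_zero : xp ℓ f 0 = 0 := (AdjoinRoot.of _).map_zero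

/-- Homomorphisms from the coordinate ring. -/
theorem cr_hom_ext {S : Type v} [CommRing S] {φ ψ : CR ℓ f →+* S}
    (h1 : ∀ c : E, φ (xp ℓ f (C c)) = ψ (xp ℓ f (C c))) (h2 : φ (xp ℓ f X) = ψ (xp ℓ f X))
    (h3 : φ (yy ℓ f) = ψ (yy ℓ f)) : φ = ψ := by
  apply RingHom.ext
  intro x
  induction x using AdjoinRoot.induction_on with
  | ih p =>
    have key : φ.comp (AdjoinRoot.mk (X ^ ℓ - C f : E[X][X])) =
        ψ.comp (AdjoinRoot.mk (X ^ ℓ - C f : E[X][X])) := by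
      apply Polynomial.ringHom_ext'
      · apply Polynomial.ringHom_ext'
        · ext c
          exact h1 c
        · exact h2
      · exact h3
    exact congrArg (fun g : E[X][X] →+* S => g p) key

/-- Induction on the elements. -/
theorem cr_mem (x : CR ℓ f) : ∃ p : E[X][X], x = AdjoinRoot.mk (X ^ ℓ - C f : E[X][X]) p := by
  obtain ⟨p, hp⟩ := AdjoinRoot.mk_surjective x
  exact ⟨p, hp.symm⟩

@[simp] theorem tw_xp {ζ : E} (h : ζ ^ ℓ = 1) (p : E[X]) : tw ℓ f ζ h (xp ℓ f p) = xp ℓ f p := by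
  unfold tw
  rw [AdjoinRoot.lift_of]

@[simp] theorem tw_yy {ζ : E} (h : ζ ^ ℓ = 1) :
    tw ℓ f ζ h (yy ℓ f) = xp ℓ f (C ζ) * yy ℓ f := by
  unfold tw
  rw [AdjoinRoot.lift_root]

@[simp] theorem evR_xp (hℓ : ℓ ≠ 0) {β : E} (h : f.eval β = 0) (p : E[X]) :
    evR ℓ hℓ f β h (xp ℓ f p) = p.eval β := by
  unfold evR
  rw [AdjoinRoot.lift_of]
  rfl

@[simp] theorem evR_yy (hℓ : ℓ ≠ 0) {β : E} (h : f.eval β = 0) :
    evR ℓ hℓ f β h (yy ℓ f) = 0 := by
  unfold evR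
  rw [AdjoinRoot.lift_root]

theorem tw_one (h : (1 : E) ^ ℓ = 1) : tw ℓ f 1 h = RingHom.id _ := by
  apply cr_hom_ext <;> simp

theorem tw_tw {ζ η : E} (h : ζ ^ ℓ = 1) (h' : η ^ ℓ = 1) (h'' : (ζ * η) ^ ℓ = 1) (x : CR ℓ f) :
    tw ℓ f ζ h (tw ℓ f η h' x) = tw ℓ f (ζ * η) h'' x := by
  have : (tw ℓ f ζ h).comp (tw ℓ f η h') = tw ℓ f (ζ * η) h'' := by
    apply cr_hom_ext
    · intro c; simp
    · simp
    · simp only [RingHom.comp_apply, tw_yy, map_mul, tw_xp]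
      ring
  exact congrArg (fun g : CR ℓ f →+* CR ℓ f => g x) this

/-- The powers of the twist. -/
theorem tw_pow {ζ : E} (h : ζ ^ ℓ = 1) (i : ℕ) (h' : (ζ ^ i) ^ ℓ = 1) :
    tw ℓ f ζ h ^ i = tw ℓ f (ζ ^ i) h' := by
  induction i with
  | zero =>
    have : tw ℓ f (ζ ^ 0) h' = RingHom.id _ := by
      apply cr_hom_ext <;> simp
    rw [this, pow_zero]
    rfl
  | succ i ih =>
    have h1 : (ζ ^ i) ^ ℓ = 1 := by rw [← pow_mul, mul_comm, pow_mul, h, one_pow]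
    rw [pow_succ, ih h1]
    apply RingHom.ext
    intro x
    show tw ℓ f (ζ ^ i) h1 (tw ℓ f ζ h x) = _
    have h2 : (ζ ^ i * ζ) ^ ℓ = 1 := by rw [← pow_succ]; exact h'
    rw [tw_tw h1 h h2]
    have e : ∀ (a b : E) (ha : a ^ ℓ = 1) (hb : b ^ ℓ = 1), a = b →
        tw ℓ f a ha x = tw ℓ f b hb x := by
      rintro a _ ha hb rfl
      rfl
    exact e _ _ h2 h' (pow_succ ζ i).symm

theorem tw_pow_ℓ {ζ : E} (h : ζ ^ ℓ = 1) : tw ℓ f ζ h ^ ℓ = 1 := by
  rw [tw_pow h ℓ (by rw [h, one_pow])]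
  apply cr_hom_ext
  · intro c; rw [tw_xp]; rfl
  · rw [tw_xp]; rfl
  · rw [tw_yy, h, C_1, xp_one, one_mul]; rfl

theorem tw_iter_ℓ {ζ : E} (h : ζ ^ ℓ = 1) (x : CR ℓ f) : (tw ℓ f ζ h ^ ℓ) x = x := by
  rw [tw_pow_ℓ]; rfl

/-- The twist does not change the value at a ramified point. -/
@[simp] theorem evR_tw (hℓ : ℓ ≠ 0) {β : E} (h : f.eval β = 0) {ζ : E} (hζ : ζ ^ ℓ = 1)
    (x : CR ℓ f) : evR ℓ hℓ f β h (tw ℓ f ζ hζ x) = evR ℓ hℓ f β h x := by
  have : (evR ℓ hℓ f β h).comp (tw ℓ f ζ hζ) = evR ℓ hℓ f β h := by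
    apply cr_hom_ext
    · intro c; simp
    · simp
    · simp
  exact congrArg (fun g : CR ℓ f →+* E => g x) this

/-- The kernel of the evaluation at a ramified point. -/
theorem evR_ker (hℓ : ℓ ≠ 0) {β : E} (h : f.eval β = 0) :
    RingHom.ker (evR ℓ hℓ f β h) = Ideal.span {xp ℓ f (X - C β), yy ℓ f} := by
  apply le_antisymm
  · intro x hx
    rw [RingHom.mem_ker] at hx
    obtain ⟨p, rfl⟩ := cr_mem x
    have h1 : ∃ q : E[X][X], p = C (p.coeff 0) + X * q := by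
      refine ⟨p.divX, ?_⟩
      conv_lhs => rw [← X_mul_divX_add p]
      ring
    obtain ⟨q, hq⟩ := h1
    have e1 : AdjoinRoot.mk (X ^ ℓ - C f : E[X][X]) p = xp ℓ f (p.coeff 0) +
        yy ℓ f * AdjoinRoot.mk _ q := by
      conv_lhs => rw [hq, map_add, map_mul]
      rfl
    rw [e1, map_add, map_mul, evR_yy, zero_mul, add_zero, evR_xp] at hx
    obtain ⟨r, hr⟩ := dvd_iff_isRoot.2 hx
    rw [e1, Ideal.mem_span_pair]
    refine ⟨xp ℓ f r, AdjoinRoot.mk _ q, ?_⟩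
    rw [hr, xp_mul]
    ring
  · rw [Ideal.span_le]
    rintro x (rfl | rfl)
    · rw [SetLike.mem_coe, RingHom.mem_ker, evR_xp]; simp
    · rw [SetLike.mem_coe, RingHom.mem_ker, evR_yy]

end ext

section crMap

variable {ℓ : ℕ} {E : Type u} {E' : Type v} {E'' : Type w} [CommRing E] [CommRing E'] [CommRing E'']

@[simp] theorem crMap_xp (φ : E →+* E') {f : E[X]} {f' : E'[X]} (h : f.map φ = f') (p : E[X]) :
    crMap ℓ φ f f' h (xp ℓ f p) = xp ℓ f' (p.map φ) := by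
  unfold crMap
  rw [AdjoinRoot.lift_of]
  rfl

@[simp] theorem crMap_yy (φ : E →+* E') {f : E[X]} {f' : E'[X]} (h : f.map φ = f') :
    crMap ℓ φ f f' h (yy ℓ f) = yy ℓ f' := by
  unfold crMap
  rw [AdjoinRoot.lift_root]

theorem crMap_id {f : E[X]} (h : f.map (RingHom.id E) = f) :
    crMap ℓ (RingHom.id E) f f h = RingHom.id _ := by
  apply cr_hom_ext <;> simp

theorem crMap_comp (φ : E →+* E') (ψ : E' →+* E'') {f : E[X]} {f' : E'[X]} {f'' : E''[X]}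
    (h : f.map φ = f') (h' : f'.map ψ = f'') (h'' : f.map (ψ.comp φ) = f'') :
    crMap ℓ (ψ.comp φ) f f'' h'' = (crMap ℓ ψ f' f'' h').comp (crMap ℓ φ f f' h) := by
  apply cr_hom_ext
  · intro c; simp
  · simp
  · simp

theorem crMap_tw (φ : E →+* E') {f : E[X]} {f' : E'[X]} (h : f.map φ = f') {ζ : E} (hζ : ζ ^ ℓ = 1)
    (hζ' : (φ ζ) ^ ℓ = 1) :
    (crMap ℓ φ f f' h).comp (tw ℓ f ζ hζ) = (tw ℓ f' (φ ζ) hζ').comp (crMap ℓ φ f f' h) := by
  apply cr_hom_ext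
  · intro c; simp
  · simp
  · simp

theorem evR_crMap (hℓ : ℓ ≠ 0) (φ : E →+* E') {f : E[X]} {f' : E'[X]} (h : f.map φ = f') {β : E}
    (hβ : f.eval β = 0) (hβ' : f'.eval (φ β) = 0) (x : CR ℓ f) :
    evR ℓ hℓ f' (φ β) hβ' (crMap ℓ φ f f' h x) = φ (evR ℓ hℓ f β hβ x) := by
  have : (evR ℓ hℓ f' (φ β) hβ').comp (crMap ℓ φ f f' h) = φ.comp (evR ℓ hℓ f β hβ) := by
    apply cr_hom_ext
    · intro c; simp
    · simp
    · simp
  exact congrArg (fun g : CR ℓ f →+* E' => g x) this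

end crMap

section field

variable {ℓ : ℕ} {E : Type u} {E' : Type v} [Field E] [Field E']

theorem monic_cr {f : E[X]} (hℓ : ℓ ≠ 0) : (X ^ ℓ - C f : E[X][X]).Monic :=
  monic_X_pow_sub_C f hℓ

/-- Every element is uniquely a polynomial in `y` of degree less than `ℓ`. -/
theorem cr_repr {f : E[X]} (hℓ : ℓ ≠ 0) (x : CR ℓ f) : ∃ p : E[X][X], p.natDegree < ℓ ∧
    x = AdjoinRoot.mk (X ^ ℓ - C f : E[X][X]) p := by
  obtain ⟨p, rfl⟩ := cr_mem x
  have hm := monic_cr (f := f) hℓ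
  refine ⟨p %ₘ (X ^ ℓ - C f), ?_, ?_⟩
  · have h1 := natDegree_modByMonic_lt p hm (by
      intro h
      have := natDegree_X_pow_sub_C (n := ℓ) (r := f)
      rw [h, natDegree_one] at this
      exact hℓ this.symm)
    rwa [natDegree_X_pow_sub_C] at h1
  · rw [AdjoinRoot.mk_eq_mk]
    have h1 := modByMonic_add_div p (X ^ ℓ - C f : E[X][X])
    exact ⟨p /ₘ (X ^ ℓ - C f), by linear_combination -h1⟩

theorem cr_repr_zero {f : E[X]} (hℓ : ℓ ≠ 0) {p : E[X][X]} (hp : p.natDegree < ℓ)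
    (h : AdjoinRoot.mk (X ^ ℓ - C f : E[X][X]) p = 0) : p = 0 := by
  rw [AdjoinRoot.mk_eq_zero] at h
  have hm := monic_cr (f := f) hℓ
  by_contra h0
  have h1 := natDegree_le_of_dvd h h0
  rw [natDegree_X_pow_sub_C] at h1
  omega

theorem crMap_inj (hℓ : ℓ ≠ 0) (φ : E →+* E') {f : E[X]} {f' : E'[X]} (h : f.map φ = f') :
    Function.Injective (crMap ℓ φ f f' h) := by
  rw [injective_iff_map_eq_zero]
  intro x hx
  obtain ⟨p, hp, rfl⟩ := cr_repr hℓ x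
  have e1 : crMap ℓ φ f f' h (AdjoinRoot.mk _ p) =
      AdjoinRoot.mk (X ^ ℓ - C f' : E'[X][X]) (p.map (mapRingHom φ)) := by
    have key : (crMap ℓ φ f f' h).comp (AdjoinRoot.mk (X ^ ℓ - C f : E[X][X])) =
        (AdjoinRoot.mk (X ^ ℓ - C f' : E'[X][X])).comp (mapRingHom (mapRingHom φ)) := by
      apply Polynomial.ringHom_ext'
      · apply RingHom.ext
        intro q
        show crMap ℓ φ f f' h (xp ℓ f q) = AdjoinRoot.mk _ (mapRingHom (mapRingHom φ) (C q))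
        rw [crMap_xp, coe_mapRingHom, map_C]
        rfl
      · show crMap ℓ φ f f' h (yy ℓ f) = AdjoinRoot.mk _ (mapRingHom (mapRingHom φ) X)
        rw [crMap_yy, coe_mapRingHom, map_X]
        rfl
    exact congrArg (fun g : E[X][X] →+* CR ℓ f' => g p) key
  rw [e1] at hx
  have h3 := cr_repr_zero hℓ (lt_of_le_of_lt natDegree_map_le hp) hx
  have h4 : p = 0 := by
    apply Polynomial.map_injective (mapRingHom φ) (by
      intro a b hab
      exact Polynomial.map_injective φ φ.injective hab)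
    rw [h3, Polynomial.map_zero]
  rw [h4, map_zero]

theorem xp_inj {f : E[X]} (hℓ : ℓ ≠ 0) : Function.Injective (xp ℓ f) := by
  rw [injective_iff_map_eq_zero]
  intro p hp
  have h1 : AdjoinRoot.mk (X ^ ℓ - C f : E[X][X]) (C p) = 0 := hp
  have h3 := cr_repr_zero hℓ (by rw [natDegree_C]; omega) h1
  exact C_eq_zero.1 h3

/-- The evaluation at a root. -/
theorem ev_eq {f : E[X]} (hℓ : ℓ ≠ 0) {β : E} (hβ : f.eval β = 0) :
    ev ℓ f β = evR ℓ hℓ f β hβ := by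
  funext a
  unfold ev
  rw [dif_pos ⟨hℓ, hβ⟩]

end field

end Pool.Agent.Y160.SQ
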