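import Pool.Agent.Y160.SQ.Defs

/-!
# Superelliptic curves: the statements of the lemmas

These are the lemmas about `y ^ ℓ = f(x)` which are used in the descent.
-/

set_option autoImplicit false
set_option linter.all false

open Polynomial IsDedekindDomain WithZero
open scoped nonZeroDivisors

namespace Pool.Agent.Y160.SQ

/-- The coordinate ring is a Dedekind domain. -/
def StRing : Prop := ∀ (ℓ : ℕ) (E : Type) [Field E] (ζ : E) (f : E[X]), Good ℓ ζ f →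
  IsDedekindDomain (CR ℓ f)

/-- The norm is the product of the twists; the units are the constants; the elements fixed by the
twist are the polynomials in `x`; the leading coefficients. -/
def StNorm : Prop := ∀ (ℓ : ℕ) (E : Type) [Field E] (ζ : E) (f : E[X]) (hg : Good ℓ ζ f),
  (∀ a : CR ℓ f, xp ℓ f (Algebra.norm E[X] a) = ∏ i ∈ Finset.range ℓ, (hg.tw ^ i) a) ∧
  (∀ a : CR ℓ f, IsUnit a → ∃ c : E, c ≠ 0 ∧ a = xp ℓ f (C c)) ∧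
  (∀ a : CR ℓ f, hg.tw a = a → ∃ p : E[X], a = xp ℓ f p) ∧
  (∀ a b : CR ℓ f, a ≠ 0 → b ≠ 0 → dg ℓ f a = dg ℓ f b → ∃ c : E, c ≠ 0 ∧
    (a = xp ℓ f (C c) * b ∨ dg ℓ f (a - xp ℓ f (C c) * b) < dg ℓ f a))

/-- The classification of the primes. -/
def StMax : Prop := ∀ (ℓ : ℕ) (E : Type) [Field E] (ζ : E) (f : E[X]) (hg : Good ℓ ζ f)
  (P : Ideal (CR ℓ f)), P.IsPrime → P ≠ ⊥ → ∃ p : E[X], Irreducible p ∧ p.Monic ∧
    ((¬ p ∣ f ∧ ∃ (d : ℕ) (c : E[X]), d ∣ ℓ ∧ p ∣ f - c ^ d ∧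
        P = Ideal.span {xp ℓ f p, yy ℓ f ^ (ℓ / d) - xp ℓ f c} ∧ P.map (hg.tw ^ d) = P ∧
        ∏ i ∈ Finset.range d, P.map (hg.tw ^ i) = Ideal.span {xp ℓ f p}) ∨
     (p ∣ f ∧ P = Ideal.span {xp ℓ f p, yy ℓ f} ∧ P ^ ℓ = Ideal.span {xp ℓ f p}))

/-- The product of the twists of an ideal. -/
def StNmI : Prop := ∀ (ℓ : ℕ) (E : Type) [Field E] (ζ : E) (f : E[X]) (hg : Good ℓ ζ f)
  (I : Ideal (CR ℓ f)), I ≠ ⊥ →
    (∃ g : E[X], g.Monic ∧ ∏ i ∈ Finset.range ℓ, I.map (hg.tw ^ i) = Ideal.span {xp ℓ f g}) ∧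
    (I ⊔ Ideal.span {yy ℓ f} = ⊤ →
      ∃ g : E[X], LP ℓ f g ∧ ∏ i ∈ Finset.range ℓ, I.map (hg.tw ^ i) = Ideal.span {xp ℓ f g})

/-- Divisibility by `1 - σ` over a separably closed field. -/
def StDiv : Prop := ∀ (ℓ : ℕ) (Ω : Type) [Field Ω] [IsSepClosed Ω] (ζ : Ω) (f : Polynomial Ω)
  (hg : Good ℓ ζ f) (I : Ideal (CR ℓ f)), I ≠ ⊥ →
    ∃ A : Ideal (CR ℓ f), A ≠ ⊥ ∧ Eqv (I * A.map hg.tw) A

/-- Galois descent for ideal classes. -/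
def StDesc : Prop := ∀ (ℓ : ℕ) (E Ω : Type) [Field E] [Field Ω] [Algebra E Ω] [IsGalois E Ω]
  (ζ : E) (f : E[X]) (f' : Polynomial Ω) (hf : f.map (algebraMap E Ω) = f') (hg : Good ℓ ζ f)
  (hτ : ∀ τ : Ω ≃ₐ[E] Ω, f'.map (τ : Ω →+* Ω) = f')
  (I : Ideal (CR ℓ f')), I ≠ ⊥ →
    (∀ τ : Ω ≃ₐ[E] Ω, Eqv (I.map (crMap ℓ (τ : Ω →+* Ω) f' f' (hτ τ))) I) →
    ∃ J : Ideal (CR ℓ f), J ≠ ⊥ ∧ Eqv (J.map (crMap ℓ (algebraMap E Ω) f f' hf)) I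

/-- The pairing: elementary properties. -/
def StChiA : Prop := ∀ (ℓ : ℕ) (Ω : Type) [Field Ω] (ζ : Ω) (f : Polynomial Ω)
  (hg : Good ℓ ζ f), f.Splits →
  (∀ I : Ideal (CR ℓ f), I ≠ ⊥ → Eqv I (I.map hg.tw) → ∀ β, f.eval β = 0 → ∃ z, Chi hg β z I) ∧
  (∀ (I : Ideal (CR ℓ f)) (β z z' : Ω), I ≠ ⊥ → f.eval β = 0 → Chi hg β z I → Chi hg β z' I →
    z = z') ∧
  (∀ (I : Ideal (CR ℓ f)) (β z : Ω), I ≠ ⊥ → f.eval β = 0 → Chi hg β z I → z ^ ℓ = 1) ∧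
  (∀ (I I' : Ideal (CR ℓ f)) (β z z' : Ω), I ≠ ⊥ → I' ≠ ⊥ → f.eval β = 0 → Chi hg β z I →
    Chi hg β z' I' → Chi hg β (z * z') (I * I')) ∧
  (∀ (I : Ideal (CR ℓ f)) (z : Ω → Ω), I ≠ ⊥ → (∀ β, f.eval β = 0 → Chi hg β (z β) I) →
    (f.roots.map z).prod = 1)

/-- The pairing: functoriality. -/
def StChiF : Prop := ∀ (ℓ : ℕ) (Ω Ω' : Type) [Field Ω] [Field Ω'] (φ : Ω →+* Ω') (ζ : Ω) (f : Polynomial Ω)
  (f' : Polynomial Ω') (hf : f.map φ = f') (hg : Good ℓ ζ f), f.Splits →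
  ∀ (I : Ideal (CR ℓ f)) (β z : Ω), I ≠ ⊥ → f.eval β = 0 → Chi hg β z I →
    Chi (hg.map φ hf) (φ β) (φ z) (I.map (crMap ℓ φ f f' hf))

/-- The pairing is injective. -/
def StChiI : Prop := ∀ (ℓ : ℕ) (Ω : Type) [Field Ω] (ζ : Ω) (f : Polynomial Ω)
  (hg : Good ℓ ζ f), f.Splits → ∀ I : Ideal (CR ℓ f), I ≠ ⊥ →
    (∀ β, f.eval β = 0 → Chi hg β 1 I) → Eqv I ⊤

/-- The pairing is surjective. -/
def StChiS : Prop := ∀ (ℓ : ℕ) (Ω : Type) [Field Ω] (ζ : Ω) (f : Polynomial Ω)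
  (hg : Good ℓ ζ f), f.Splits → ∀ z : Ω → Ω, (∀ β, f.eval β = 0 → z β ^ ℓ = 1) →
    (f.roots.map z).prod = 1 →
    ∃ I : Ideal (CR ℓ f), I ≠ ⊥ ∧ Eqv I (I.map hg.tw) ∧ ∀ β, f.eval β = 0 → Chi hg β (z β) I

/-- Every class contains an ideal prime to the ramified points. -/
def StMove : Prop := ∀ (ℓ : ℕ) (E : Type) [Field E] (ζ : E) (f : E[X]) (hg : Good ℓ ζ f)
  (I : Ideal (CR ℓ f)), I ≠ ⊥ → ∃ J : Ideal (CR ℓ f), Eqv I J ∧ J ⊔ Ideal.span {yy ℓ f} = ⊤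

/-- The Kummer class of an ideal class over `E`. -/
def StKC : Prop := ∀ (ℓ : ℕ) (E Ω : Type) [Field E] [Field Ω] [Algebra E Ω]
  (ζ : E) (f : E[X]) (f' : Polynomial Ω) (hf : f.map (algebraMap E Ω) = f') (hg : Good ℓ ζ f)
  (hτ : ∀ τ : Ω ≃ₐ[E] Ω, f'.map (τ : Ω →+* Ω) = f'), f'.Splits →
  ∀ (I : Ideal (CR ℓ f)) (A : Ideal (CR ℓ f')) (g : E[X]), I ⊔ Ideal.span {yy ℓ f} = ⊤ → A ≠ ⊥ →
    IsCoprime g f → ∏ i ∈ Finset.range ℓ, I.map (hg.tw ^ i) = Ideal.span {xp ℓ f g} →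
    Eqv (I.map (crMap ℓ (algebraMap E Ω) f f' hf) * A.map (hg.map (algebraMap E Ω) hf).tw) A →
    ∃ t : Ω → Ω,
      (∀ β, f'.eval β = 0 → t β ≠ 0 ∧ aeval β g ≠ 0 ∧
        t β ^ ℓ * (f'.roots.map fun β' => aeval β' g).prod = aeval β g ^ f.natDegree) ∧
      ∀ (τ : Ω ≃ₐ[E] Ω) (β z : Ω) (D : Ideal (CR ℓ f')), f'.eval β = 0 → D ≠ ⊥ →
        Eqv (A.map (crMap ℓ (τ : Ω →+* Ω) f' f' (hτ τ))) (D * A) →
        Chi (hg.map (algebraMap E Ω) hf) (τ β) z D → τ (t β) = z * t (τ β)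

/-- The local condition. `O` is the ring of integers of the completion `L` of `F` at `v`. -/
def StLoc : Prop := ∀ (ℓ : ℕ) (A F : Type) [CommRing A] [IsDedekindDomain A] [Field F]
  [Algebra A F] [IsFractionRing A F] (v : HeightOneSpectrum A) (E : Type) [Field E]
  (wE : Valuation E (WithZero (Multiplicative ℤ))) (j : v.adicCompletion F →+* E)
  (hle : ∀ y, Valued.v y ≤ 1 → wE (j y) ≤ 1) (hlt : ∀ y, Valued.v y < 1 → wE (j y) < 1)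
  (f : (v.adicCompletionIntegers F)[X]) (fL p c : (v.adicCompletion F)[X]) (θ : E),
  0 < ℓ → f.map (algebraMap _ _) = fL → f.Monic → fL.Separable →
  (∀ a : (IsLocalRing.ResidueField (v.adicCompletionIntegers F))[X], Irreducible a →
    ℓ.Coprime a.natDegree) →
  (∀ a : (v.adicCompletionIntegers F)[X], a.Monic →
    Irreducible (a.map (IsLocalRing.residue (v.adicCompletionIntegers F))) →
    f ∉ (Ideal.span {a} ⊔ (IsLocalRing.maximalIdeal (v.adicCompletionIntegers F)).map C) ^ 2) →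
  ℓ.Coprime f.natDegree →
  (fL.map j).eval θ = 0 → p.Monic → Irreducible p → ¬ p ∣ fL → p ∣ fL - c ^ ℓ →
  ∃ γ : WithZero (Multiplicative ℤ), wE ((p.map j).eval θ) = γ ^ ℓ

end Pool.Agent.Y160.SQ
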