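import Pool.Agent.Y160.SQ.Crit
import Pool.Agent.Y705.SQ.Ring
import Pool.Agent.Y705.SQ.Norm
import Pool.Agent.Y317.SQ.Max
import Pool.Agent.Y317.SQ.CKC
import Pool.Agent.Y317.SQ.CTools
import Pool.Agent.Y317.SQ.CChi
import Pool.Agent.Y317.SQ.DChi
import Pool.Agent.Y317.SQ.DDesc
import Pool.Agent.Y317.SQ.LLoc
import Pool.Agent.Y494.SQ.Div
import Pool.Agent.Y228.SE.Pic
import Pool.Agent.Y228.SE.Sm
import Pool.Agent.Y317.SE.Res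

/-!
# All the lemmas for prime powers
-/

set_option autoImplicit false
set_option linter.all false

namespace Pool.Agent.Y160.SQ

theorem hyps : Hyps where
  ring := Pool.Agent.Y705.SQ.stRing
  norm := Pool.Agent.Y705.SQ.stNorm
  max := Pool.Agent.Y317.SQ.stMax Pool.Agent.Y705.SQ.stRing Pool.Agent.Y705.SQ.stNorm
  nmi := Pool.Agent.Y317.SQ.stNmI Pool.Agent.Y705.SQ.stRing Pool.Agent.Y705.SQ.stNorm
  move := Pool.Agent.Y317.SQ.C.stMove Pool.Agent.Y705.SQ.stRing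
  div := Pool.Agent.Y494.SQ.stDiv Pool.Agent.Y705.SQ.stRing Pool.Agent.Y705.SQ.stNorm
    (Pool.Agent.Y317.SQ.stNmI Pool.Agent.Y705.SQ.stRing Pool.Agent.Y705.SQ.stNorm)
  desc := Pool.Agent.Y317.SQ.D.stDesc Pool.Agent.Y705.SQ.stRing Pool.Agent.Y705.SQ.stNorm
  chiA := Pool.Agent.Y317.SQ.C.stChiA Pool.Agent.Y705.SQ.stRing Pool.Agent.Y705.SQ.stNorm
  chiF := Pool.Agent.Y317.SQ.C.stChiF
  chiI := Pool.Agent.Y317.SQ.D.stChiI Pool.Agent.Y705.SQ.stRing Pool.Agent.Y705.SQ.stNorm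
    (Pool.Agent.Y317.SQ.stMax Pool.Agent.Y705.SQ.stRing Pool.Agent.Y705.SQ.stNorm)
    (Pool.Agent.Y317.SQ.stNmI Pool.Agent.Y705.SQ.stRing Pool.Agent.Y705.SQ.stNorm)
    (Pool.Agent.Y317.SQ.C.stChiA Pool.Agent.Y705.SQ.stRing Pool.Agent.Y705.SQ.stNorm)
  chiS := Pool.Agent.Y317.SQ.D.stChiS Pool.Agent.Y705.SQ.stRing Pool.Agent.Y705.SQ.stNorm
    (Pool.Agent.Y317.SQ.stMax Pool.Agent.Y705.SQ.stRing Pool.Agent.Y705.SQ.stNorm)
    (Pool.Agent.Y317.SQ.stNmI Pool.Agent.Y705.SQ.stRing Pool.Agent.Y705.SQ.stNorm)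
    (Pool.Agent.Y317.SQ.C.stChiA Pool.Agent.Y705.SQ.stRing Pool.Agent.Y705.SQ.stNorm)
  kc := Pool.Agent.Y317.SQ.C.stKC Pool.Agent.Y705.SQ.stRing Pool.Agent.Y705.SQ.stNorm
  pic := Pool.Agent.Y228.SE.stPic

theorem lhyps : LHyps where
  loc := Pool.Agent.Y317.SQ.L.stLoc
  sm := Pool.Agent.Y228.SE.stSm
  res := Pool.Agent.Y317.SE.stRes

end Pool.Agent.Y160.SQ
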