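import Pool.Agent.Y160.SQ.LocC
import Pool.Agent.TH115.TC.Compl
import Pool.Agent.Y160.SE.Par

/-!
# The valuations of the Kummer generator
-/

set_option autoImplicit false
set_option linter.all false

open Polynomial IsDedekindDomain WithZero
open scoped nonZeroDivisors Classical

namespace Pool.Agent.Y160.SQ

open Pool.Agent.TH115.GD (incl rs ak Sep Comp CompInf IsTower rs_mul Preserves exists_conj lift_fix
  cont_rs exists_restrict exists_aut exists_kappa exists_compl_map)
open Pool.Agent.W309.TD (locConst_apply compare)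
open Pool.Agent.Y160.SE (SmoothC IsPw)

/-- The local lemmas. -/
structure LHyps : Prop where
  loc : StLoc
  sm : Pool.Agent.Y160.SE.StSm
  res : Pool.Agent.Y160.SE.StRes

section par

variable {p m ℓ : ℕ} {k k' K F M B : Type} [Field k] [Field k'] [Algebra k k'] [Field K]
  [Algebra k[X] K] [Field F] [Algebra k'[X] F] [IsFractionRing k'[X] F] [Algebra K F]
  [Field M] [Algebra F M] [Algebra K M] [IsScalarTower K F M] [Algebra M (Sep F)]
  [IsScalarTower F M (Sep F)]
  [CommRing B] [IsDedekindDomain B] [Algebra B M] [IsFractionRing B M] [Algebra k'[X] B]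
  [Algebra.IsIntegral k'[X] B] [Algebra k'[X] M] [IsScalarTower k'[X] F M]
  [IsScalarTower k'[X] B M] [Module.IsTorsionFree k'[X] B]

/-- The valuations of the generator are `ℓ`-th powers. -/
theorem parM (hp : p.Prime) (hpm : ℓ = p ^ m) (H : Hyps) (HL : LHyps) [IsSepClosed k'] (hKF : ∀ p : k[X],
      algebraMap K F (algebraMap k[X] K p) = algebraMap k'[X] F (p.map (algebraMap k k')))
    {f : k[X][X]} {ζ : K} (hg : Good ℓ ζ (f.map (algebraMap k[X] K))) (hfm : f.Monic)
    (hℓk : (ℓ : k') ≠ 0) (hS : SmoothC f)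
    {a : Sep F} {θ z : M} (hθ : algebraMap M (Sep F) θ = a)
    (ha : Rt (f.map (algebraMap k[X] K)) a)
    {c : (Sep F ≃ₐ[F] Sep F) → Jac ℓ (f.map (algebraMap k[X] K)) (Sep F)}
    (hc : IsCoc ℓ _ c) (hc2 : ∀ σ, Tor hg (c σ))
    (hloc : LocallyTrivial ℓ k' _ c) {t : Sep F} (ht : t ≠ 0)
    (hz : t ^ ℓ = algebraMap M (Sep F) z) (hk : ∀ σ : Sep F ≃ₐ[F] Sep F, σ a = a →
      σ t = chi hg a (c σ) * t) (𝔓 : HeightOneSpectrum B) : IsPw ℓ (𝔓.valuation M z) := by
  set f1 := f.map (algebraMap k[X] K) with hf1
  let v : HeightOneSpectrum k'[X] := 𝔓.under k'[X]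
  haveI hlo : 𝔓.asIdeal.LiesOver v.asIdeal := ⟨rfl⟩
  have hval : ∀ x : F, v.valuation F x ^ v.asIdeal.ramificationIdx' 𝔓.asIdeal =
      𝔓.valuation M (algebraMap F M x) := fun x =>
    HeightOneSpectrum.valuation_liesOver (A := k'[X]) M v 𝔓 x
  have he : v.asIdeal.ramificationIdx' 𝔓.asIdeal ≠ 0 :=
    Ideal.IsDedekindDomain.ramificationIdx'_ne_zero_of_liesOver 𝔓.asIdeal v.ne_bot
  obtain ⟨j, hj1, hj2, hj3⟩ := exists_compl_map v 𝔓 (algebraMap F M)
    (fun x hx => by rw [← hval]; exact pow_le_one₀ zero_le hx)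
    (fun x hx => by rw [← hval]; exact pow_lt_one₀ zero_le hx he)
  let L := Comp k'[X] F v
  let E := Comp B M 𝔓
  haveI : IsScalarTower K F E := IsScalarTower.of_algebraMap_eq fun x => by
    show algebraMap M E (algebraMap K M x) = algebraMap M E (algebraMap F M (algebraMap K F x))
    rw [← IsScalarTower.algebraMap_apply K F M]
  let j' : L →+* E := j
  have hj' : ∀ x : F, j' (algebraMap F L x) = algebraMap F E x := fun x => hj1 x
  have hjK : ∀ x : K, j' (algebraMap K L x) = algebraMap K E x := fun x => by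
    rw [IsScalarTower.algebraMap_apply K F L, hj', ← IsScalarTower.algebraMap_apply K F E]
  obtain ⟨g0, G, y0, hg0, hy0, hG, hzG⟩ := locC (K := K) (F := F) (Ω := Sep F) (L := L)
    (Ω' := Sep L) (E := E) (M := M) H hg (Sep E) ha hθ j' hj' hc hc2 (hloc.1 v) ht hz hk
  let wE : Valuation E (WithZero (Multiplicative ℤ)) :=
    (Valued.v : Valuation (𝔓.adicCompletion M) (WithZero (Multiplicative ℤ)))
  have wz : ∀ x : M, wE (algebraMap M E x) = 𝔓.valuation M x := fun x =>
    HeightOneSpectrum.valuedAdicCompletion_eq_valuation' 𝔓 x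
  -- the polynomial over the integers of the completion
  let fO : (v.adicCompletionIntegers F)[X] :=
    (f.map (mapRingHom (algebraMap k k'))).map (algebraMap k'[X] (v.adicCompletionIntegers F))
  have hfO : fO.map (algebraMap (v.adicCompletionIntegers F) (v.adicCompletion F)) =
      f1.map (algebraMap K L) := by
    show ((f.map (mapRingHom (algebraMap k k'))).map
      (algebraMap k'[X] (v.adicCompletionIntegers F))).map
      (algebraMap (v.adicCompletionIntegers F) (v.adicCompletion F)) = _
    rw [Polynomial.map_map, Polynomial.map_map, hf1, Polynomial.map_map]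
    congr 1
    apply RingHom.ext
    intro p
    show algebraMap (v.adicCompletionIntegers F) (v.adicCompletion F)
      (algebraMap k'[X] (v.adicCompletionIntegers F) (p.map (algebraMap k k'))) =
      algebraMap K L (algebraMap k[X] K p)
    rw [IsScalarTower.algebraMap_apply K F L, hKF]
    rfl
  have hroot : ((f1.map (algebraMap K L)).map j').eval (algebraMap M E θ) = 0 := by
    have h1 : eval₂ (algebraMap K M) θ f1 = 0 := by
      apply (algebraMap M (Sep F)).injective
      rw [hom_eval₂, hθ, map_zero]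
      have h3 : (algebraMap M (Sep F)).comp (algebraMap K M) = algebraMap K (Sep F) :=
        RingHom.ext fun x => by
          show algebraMap M (Sep F) (algebraMap K M x) = _
          rw [IsScalarTower.algebraMap_apply K F M, ← IsScalarTower.algebraMap_apply F M (Sep F),
            ← IsScalarTower.algebraMap_apply K F (Sep F)]
      rw [h3]
      exact ha
    rw [Polynomial.map_map]
    have h3 : j'.comp (algebraMap K L) = (algebraMap M E).comp (algebraMap K M) :=
      RingHom.ext fun x => hjK x
    rw [h3, eval_map, ← hom_eval₂, h1, map_zero]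
  have hpk : (p : k') ≠ 0 := by
    intro h0
    apply hℓk
    rw [hpm, Nat.cast_pow, h0, zero_pow]
    rintro rfl
    exact hg.one_lt.ne' (by rw [hpm, pow_zero])
  have hcop : ∀ a : (IsLocalRing.ResidueField (v.adicCompletionIntegers F))[X], Irreducible a →
      ∀ d : ℕ, d ∣ ℓ → d.Coprime a.natDegree := by
    intro a ha d hd
    have h1 := HL.res k' F v p hp hpk a ha
    refine Nat.Coprime.coprime_dvd_left hd ?_
    rw [hpm]
    exact Nat.Coprime.pow_left m h1
  have hpw : ∀ s : Multiset (ℕ × L[X]), (∀ x ∈ s, x.2.Monic ∧ Irreducible x.2 ∧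
      ¬ x.2 ∣ f1.map (algebraMap K L) ∧ x.1 ∣ ℓ ∧
      ∃ c : L[X], x.2 ∣ f1.map (algebraMap K L) - c ^ x.1) →
      IsPw ℓ (wE ((((s.map fun x : ℕ × L[X] => x.2 ^ (ℓ / x.1)).prod).map j').eval (algebraMap M E θ))) := by
    intro s
    induction s using Multiset.induction_on with
    | empty =>
      intro _
      rw [Multiset.map_zero, Multiset.prod_zero, Polynomial.map_one, eval_one, map_one]
      exact ⟨1, (one_pow _).symm⟩
    | cons x s ih =>
      intro h
      obtain ⟨h1, h3, h4, hd, c, h5⟩ := h x (Multiset.mem_cons_self x s)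
      rw [Multiset.map_cons, Multiset.prod_cons, Polynomial.map_mul, eval_mul, map_mul]
      refine IsPw.mul ?_ (ih fun q hq => h q (Multiset.mem_cons_of_mem hq))
      have hd0 : 0 < x.1 := Nat.pos_of_dvd_of_pos hd hg.pos
      obtain ⟨γ, hγ⟩ := HL.loc x.1 k'[X] F v E wE j' hj2 hj3 fO (f1.map (algebraMap K L)) x.2 c
        (algebraMap M E θ) hd0 hfO (by exact (hfm.map _).map _) (hg.up L).sep
        (fun a ha => hcop a ha x.1 hd)
        (HL.sm k' F v _ (hS.map (algebraMap k k')))
        (by
          have h6 := hg.cop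
          rw [hfm.natDegree_map] at h6
          have h7 : fO.natDegree = f.natDegree := by
            show ((f.map (mapRingHom (algebraMap k k'))).map
              (algebraMap k'[X] (v.adicCompletionIntegers F))).natDegree = _
            rw [(hfm.map _).natDegree_map, hfm.natDegree_map]
          rw [h7]
          exact Nat.Coprime.coprime_dvd_left hd h6) hroot h1 h3 h4 h5
      refine ⟨γ, ?_⟩
      rw [Polynomial.map_pow, eval_pow, map_pow]
      refine (congrArg (fun δ => δ ^ (ℓ / x.1)) hγ).trans ?_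
      show (γ ^ x.1) ^ (ℓ / x.1) = γ ^ ℓ
      rw [← pow_mul, Nat.mul_div_cancel' hd]
  obtain ⟨s, hps, hGe⟩ := hG
  have hGpw : IsPw ℓ (wE ((G.map j').eval (algebraMap M E θ))) := by
    rw [hGe]
    exact hpw s hps
  rw [← wz]
  refine IsPw.of_mul (δ := wE (j' y0)) ?_ ?_
  · rw [Valuation.ne_zero_iff]
    exact (_root_.map_ne_zero j').2 hy0
  · rw [← map_pow, ← map_mul]
    rcases hzG with h | h
    · rw [h, map_mul, map_pow, map_pow]
      exact (IsPw.self _).mul (hGpw.pow _)
    · rw [h, Valuation.map_neg, map_mul, map_pow, map_pow]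
      exact (IsPw.self _).mul (hGpw.pow _)

end par

end Pool.Agent.Y160.SQ
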