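import Pool.Agent.Y160.SQ.LocC

/-!
# The prime ideals `(p, y - c)`
-/

set_option autoImplicit false
set_option linter.all false

open Polynomial IsDedekindDomain WithZero
open scoped nonZeroDivisors Classical

namespace Pool.Agent.Y160.SQ

section pr

variable {ℓ : ℕ} {E : Type} [Field E] {f : E[X]} {ζ : E}

/-- The value at the points with `p = 0`, `y = c`. -/
noncomputable def evP (ℓ : ℕ) (f p c : E[X]) (h : p ∣ f - c ^ ℓ) : CR ℓ f →+* AdjoinRoot p :=
  AdjoinRoot.lift (AdjoinRoot.mk p) (AdjoinRoot.mk p c) (by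
    rw [eval₂_sub, eval₂_X_pow, eval₂_C, ← map_pow, ← map_sub, AdjoinRoot.mk_eq_zero]
    rw [← neg_sub, dvd_neg]
    exact h)

@[simp] theorem evP_xp {p c : E[X]} (h : p ∣ f - c ^ ℓ) (q : E[X]) :
    evP ℓ f p c h (xp ℓ f q) = AdjoinRoot.mk p q := by
  unfold evP
  rw [AdjoinRoot.lift_of]

@[simp] theorem evP_yy {p c : E[X]} (h : p ∣ f - c ^ ℓ) :
    evP ℓ f p c h (yy ℓ f) = AdjoinRoot.mk p c := by
  unfold evP
  rw [AdjoinRoot.lift_root]

/-- The ideal `(p, y - c)`. -/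
noncomputable def prI (ℓ : ℕ) (f p c : E[X]) : Ideal (CR ℓ f) :=
  Ideal.span {xp ℓ f p, yy ℓ f - xp ℓ f c}

theorem prI_eq {p c : E[X]} (h : p ∣ f - c ^ ℓ) : prI ℓ f p c = RingHom.ker (evP ℓ f p c h) := by
  apply le_antisymm
  · unfold prI
    rw [Ideal.span_le]
    rintro z (rfl | rfl)
    · rw [SetLike.mem_coe, RingHom.mem_ker, evP_xp, AdjoinRoot.mk_self]
    · rw [SetLike.mem_coe, RingHom.mem_ker, map_sub, evP_xp, evP_yy, sub_self]
  · intro z hz
    rw [RingHom.mem_ker] at hz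
    obtain ⟨q, rfl⟩ := cr_mem z
    have h1 : (yy ℓ f - xp ℓ f c) ∣ AdjoinRoot.mk (X ^ ℓ - C f : E[X][X]) q -
        xp ℓ f (q.eval c) := by
      obtain ⟨r, hr⟩ := X_sub_C_dvd_sub_C_eval (p := q) (a := c)
      refine ⟨AdjoinRoot.mk _ r, ?_⟩
      have h3 := congrArg (AdjoinRoot.mk (X ^ ℓ - C f : E[X][X])) hr
      rw [map_sub, map_mul, map_sub] at h3
      exact h3
    obtain ⟨r, hr⟩ := h1
    have h4 := congrArg (evP ℓ f p c h) hr
    rw [map_sub, hz, evP_xp, map_mul, map_sub, evP_yy, evP_xp, sub_self, zero_mul,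
      zero_sub, neg_eq_zero, AdjoinRoot.mk_eq_zero] at h4
    obtain ⟨s, hs⟩ := h4
    have h5 : AdjoinRoot.mk (X ^ ℓ - C f : E[X][X]) q = xp ℓ f s * xp ℓ f p +
        r * (yy ℓ f - xp ℓ f c) := by
      rw [← xp_mul, mul_comm s, ← hs]
      linear_combination hr
    unfold prI
    rw [h5, Ideal.mem_span_pair]
    exact ⟨_, _, rfl⟩

theorem not_dvd_c {p c : E[X]} (hℓ : ℓ ≠ 0) (hp : Irreducible p) (hpf : ¬ p ∣ f)
    (h : p ∣ f - c ^ ℓ) : ¬ p ∣ c := by
  intro hc
  apply hpf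
  have h1 : p ∣ c ^ ℓ := dvd_pow hc hℓ
  have := dvd_add h h1
  rwa [sub_add_cancel] at this

theorem prI_cop {p c : E[X]} (hp : Irreducible p) (hc : ¬ p ∣ c) :
    prI ℓ f p c ⊔ Ideal.span {yy ℓ f} = ⊤ := by
  obtain ⟨a, b, hab⟩ := (hp.coprime_iff_not_dvd.2 hc)
  rw [Ideal.eq_top_iff_one]
  have h1 : (1 : CR ℓ f) = (xp ℓ f a * xp ℓ f p + (-xp ℓ f b) * (yy ℓ f - xp ℓ f c)) +
      xp ℓ f b * yy ℓ f := by
    have : xp ℓ f a * xp ℓ f p + xp ℓ f b * xp ℓ f c = 1 := by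
      rw [← xp_mul, ← xp_mul, ← xp_add, hab, xp_one]
    linear_combination -this
  rw [h1]
  refine Ideal.add_mem _ (Ideal.mem_sup_left ?_)
    (Ideal.mem_sup_right (Ideal.mul_mem_left _ _ (Ideal.subset_span rfl)))
  unfold prI
  rw [Ideal.mem_span_pair]
  exact ⟨_, _, rfl⟩

theorem prI_ne {p c : E[X]} (hℓ : ℓ ≠ 0) (hp : Irreducible p) : prI ℓ f p c ≠ ⊥ := by
  intro h0
  have hmem : xp ℓ f p ∈ prI ℓ f p c := Ideal.subset_span (Or.inl rfl)
  rw [h0, Ideal.mem_bot] at hmem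
  exact hp.ne_zero (xp_inj hℓ (hmem.trans xp_zero.symm))

theorem prI_norm (hM : StMax) (hg : Good ℓ ζ f) {p c : E[X]} (hp : Irreducible p) (hpm : p.Monic)
    (hpf : ¬ p ∣ f) (h : p ∣ f - c ^ ℓ) :
    ∏ i ∈ Finset.range ℓ, (prI ℓ f p c).map (hg.tw ^ i) = Ideal.span {xp ℓ f p} := by
  haveI : Fact (Irreducible p) := ⟨hp⟩
  have hpc := not_dvd_c hg.ne hp hpf h
  have hprime : (prI ℓ f p c).IsPrime := by
    rw [prI_eq h]
    exact RingHom.ker_isPrime _
  have hmemy : yy ℓ f - xp ℓ f c ∈ prI ℓ f p c := Ideal.subset_span (Or.inr rfl)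
  obtain ⟨p', hp', hpm', hcase⟩ := hM ℓ E ζ f hg (prI ℓ f p c) hprime (prI_ne hg.ne hp)
  have hpe : xp ℓ f p' ∈ prI ℓ f p c → p' = p := by
    intro h1
    rw [prI_eq h, RingHom.mem_ker, evP_xp, AdjoinRoot.mk_eq_zero] at h1
    exact (eq_of_monic_of_associated hpm hpm' (hp.associated_of_dvd hp' h1)).symm
  rcases hcase with ⟨h1, d, c', hd, h3, h4, h5, h6⟩ | ⟨h1, h3, h4⟩
  · have hpp := hpe (by rw [h4]; exact Ideal.subset_span (Or.inl rfl))
    have hd0 : d ≠ 0 := fun h0 => hg.ne (Nat.eq_zero_of_zero_dvd (h0 ▸ hd))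
    have hdl : d = ℓ := by
      by_contra hne
      have hlt : d < ℓ := lt_of_le_of_ne (Nat.le_of_dvd hg.pos hd) hne
      have h7 : (hg.tw ^ d) (yy ℓ f - xp ℓ f c) ∈ prI ℓ f p c := by
        have := Ideal.mem_map_of_mem (hg.tw ^ d) hmemy
        rwa [h5] at this
      have h8 : (hg.tw ^ d) (yy ℓ f - xp ℓ f c) = xp ℓ f (C (ζ ^ d)) * yy ℓ f - xp ℓ f c := by
        have key : ∀ n : ℕ, (hg.tw ^ n) (yy ℓ f) = xp ℓ f (C (ζ ^ n)) * yy ℓ f ∧
            ∀ q, (hg.tw ^ n) (xp ℓ f q) = xp ℓ f q := by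
          intro n
          induction n with
          | zero => exact ⟨by rw [pow_zero, pow_zero, C_1, xp_one, one_mul]; rfl, fun q => rfl⟩
          | succ n ih =>
            constructor
            · rw [pow_succ]
              show (hg.tw ^ n) (hg.tw (yy ℓ f)) = _
              rw [tw_yy, map_mul, ih.1, ih.2, pow_succ, C_mul, xp_mul]
              ring
            · intro q
              rw [pow_succ]
              show (hg.tw ^ n) (hg.tw (xp ℓ f q)) = _
              rw [tw_xp, ih.2]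
        rw [map_sub, (key d).1, (key d).2]
      rw [h8, prI_eq h, RingHom.mem_ker, map_sub, map_mul, evP_xp, evP_yy, evP_xp, ← map_mul,
        ← map_sub, AdjoinRoot.mk_eq_zero] at h7
      have h9 : C (ζ ^ d) * c - c = C (ζ ^ d - 1) * c := by rw [C_sub, C_1]; ring
      have h10 : ζ ^ d - 1 ≠ 0 := sub_ne_zero.2 (hg.root.pow_ne_one_of_pos_of_lt hd0 hlt)
      rw [h9] at h7
      rcases hp.prime.dvd_or_dvd h7 with h11 | h11
      · exact hp.not_isUnit (isUnit_of_dvd_unit h11 (isUnit_C.2 (isUnit_iff_ne_zero.2 h10)))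
      · exact hpc h11
    subst hdl
    rw [hpp] at h6
    exact h6
  · exfalso
    have hpp := hpe (by rw [h3]; exact Ideal.subset_span (Or.inl rfl))
    rw [hpp] at h1
    exact hpf h1

/-- The ideal of a divisor. -/
noncomputable def dvI (ℓ : ℕ) (f : E[X]) (S : Multiset (E[X] × E[X])) : Ideal (CR ℓ f) :=
  (S.map fun P => prI ℓ f P.1 P.2).prod

theorem dvI_cop {S : Multiset (E[X] × E[X])} (hS : ∀ P ∈ S, Irreducible P.1 ∧ ¬ P.1 ∣ P.2) :
    dvI ℓ f S ⊔ Ideal.span {yy ℓ f} = ⊤ := by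
  induction S using Multiset.induction_on with
  | empty => unfold dvI; rw [Multiset.map_zero, Multiset.prod_zero, Ideal.one_eq_top, top_sup_eq]
  | cons P S ih =>
    unfold dvI at *
    rw [Multiset.map_cons, Multiset.prod_cons]
    obtain ⟨h1, h2⟩ := hS P (Multiset.mem_cons_self P S)
    rw [Ideal.mul_sup_eq_of_coprime_left (prI_cop h1 h2)]
    exact ih fun Q hQ => hS Q (Multiset.mem_cons_of_mem hQ)

theorem dvI_ne (hR : IsDedekindDomain (CR ℓ f)) (hℓ : ℓ ≠ 0) {S : Multiset (E[X] × E[X])}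
    (hS : ∀ P ∈ S, Irreducible P.1) : dvI ℓ f S ≠ ⊥ := by
  induction S using Multiset.induction_on with
  | empty =>
    unfold dvI
    rw [Multiset.map_zero, Multiset.prod_zero, Ideal.one_eq_top]
    exact top_ne_bot
  | cons P S ih =>
    unfold dvI at *
    rw [Multiset.map_cons, Multiset.prod_cons]
    intro h
    rcases Ideal.mul_eq_bot.1 h with h | h
    · exact prI_ne hℓ (hS P (Multiset.mem_cons_self P S)) h
    · exact ih (fun Q hQ => hS Q (Multiset.mem_cons_of_mem hQ)) h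

/-- The polynomial of a divisor. -/
noncomputable def dvP (S : Multiset (E[X] × E[X])) : E[X] := (S.map fun P => P.1).prod

theorem dvI_norm (hM : StMax) (hg : Good ℓ ζ f) {S : Multiset (E[X] × E[X])}
    (hS : ∀ P ∈ S, Irreducible P.1 ∧ P.1.Monic ∧ ¬ P.1 ∣ f ∧ P.1 ∣ f - P.2 ^ ℓ) :
    ∏ i ∈ Finset.range ℓ, (dvI ℓ f S).map (hg.tw ^ i) = Ideal.span {xp ℓ f (dvP S)} := by
  induction S using Multiset.induction_on with
  | empty =>
    unfold dvI dvP
    rw [Multiset.map_zero, Multiset.prod_zero, Multiset.map_zero, Multiset.prod_zero, xp_one,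
      Ideal.span_singleton_one, ← Ideal.one_eq_top]
    have h1 : ∏ i ∈ Finset.range ℓ, (1 : Ideal (CR ℓ f)).map (hg.tw ^ i) = 1 :=
      Finset.prod_eq_one fun i _ => by rw [Ideal.one_eq_top, Ideal.map_top]
    exact h1
  | cons P S ih =>
    have h1 := ih fun Q hQ => hS Q (Multiset.mem_cons_of_mem hQ)
    obtain ⟨h3, h4, h6, h7⟩ := hS P (Multiset.mem_cons_self P S)
    have h5 := prI_norm hM hg h3 h4 h6 h7
    unfold dvI dvP at *
    rw [Multiset.map_cons, Multiset.prod_cons, Multiset.map_cons, Multiset.prod_cons, xp_mul,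
      ← Ideal.span_singleton_mul_span_singleton, ← h5, ← h1, ← Finset.prod_mul_distrib]
    refine Finset.prod_congr rfl fun i _ => ?_
    rw [Ideal.map_mul]

theorem dvP_lp (hℓ : 0 < ℓ) {S : Multiset (E[X] × E[X])}
    (hS : ∀ P ∈ S, Irreducible P.1 ∧ P.1.Monic ∧ ¬ P.1 ∣ f ∧ P.1 ∣ f - P.2 ^ ℓ) :
    LP ℓ f (dvP S) := by
  refine ⟨S.map fun P => (ℓ, P.1), fun x hx => ?_, ?_⟩
  · obtain ⟨P, hP, rfl⟩ := Multiset.mem_map.1 hx
    obtain ⟨h1, h3, h4, h5⟩ := hS P hP
    exact ⟨h3, h1, h4, dvd_rfl, P.2, h5⟩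
  · unfold dvP
    rw [Multiset.map_map]
    congr 1
    apply Multiset.map_congr rfl
    intro P _
    show P.1 = P.1 ^ (ℓ / ℓ)
    rw [Nat.div_self hℓ, pow_one]

theorem dvP_eval {Ω : Type} [Field Ω] [Algebra E Ω] (S : Multiset (E[X] × E[X])) (a : Ω) :
    aeval a (dvP S) = (S.map fun P => aeval a P.1).prod := by
  unfold dvP
  rw [map_multiset_prod, Multiset.map_map]
  rfl

/-- The irreducible factors of a divisor. -/
theorem exists_factors (S : Multiset E[X]) (hS : ∀ a ∈ S, a.Monic ∧ ∃ b, a ∣ f - b ^ ℓ) :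
    ∃ T : Multiset (E[X] × E[X]), (∀ P ∈ T, Irreducible P.1 ∧ P.1.Monic ∧ P.1 ∣ f - P.2 ^ ℓ) ∧
      dvP T = S.prod := by
  induction S using Multiset.induction_on with
  | empty => exact ⟨0, fun P hP => absurd hP (Multiset.notMem_zero P), rfl⟩
  | cons a S ih =>
    obtain ⟨T, hT, hTS⟩ := ih fun b hb => hS b (Multiset.mem_cons_of_mem hb)
    obtain ⟨ham, b, hab⟩ := hS a (Multiset.mem_cons_self a S)
    let U : Multiset E[X] := UniqueFactorizationMonoid.normalizedFactors a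
    refine ⟨U.map (fun p => (p, b)) + T, fun P hP => ?_, ?_⟩
    · rcases Multiset.mem_add.1 hP with hP | hP
      · obtain ⟨p, hp, rfl⟩ := Multiset.mem_map.1 hP
        have h1 := UniqueFactorizationMonoid.irreducible_of_normalized_factor p hp
        have h2 := UniqueFactorizationMonoid.dvd_of_mem_normalizedFactors hp
        have h3 := UniqueFactorizationMonoid.normalize_normalized_factor p hp
        refine ⟨h1, ?_, h2.trans hab⟩
        have h4 := Polynomial.monic_normalize h1.ne_zero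
        rwa [h3] at h4
      · exact hT P hP
    · unfold dvP at *
      rw [Multiset.map_add, Multiset.prod_add, hTS, Multiset.prod_cons, Multiset.map_map]
      congr 1
      have h1 := UniqueFactorizationMonoid.prod_normalizedFactors_eq ham.ne_zero
      rw [ham.normalize_eq_self] at h1
      rw [← h1]
      congr 1
      exact Multiset.map_id _

end pr

end Pool.Agent.Y160.SQ
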