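import Pool.Agent.Y160.SQ.Step

/-!
# The pairing of the classes killed by `1 - σ` with the roots of `f`
-/

set_option autoImplicit false
set_option linter.all false

open Polynomial IsDedekindDomain
open scoped nonZeroDivisors Classical

namespace Pool.Agent.Y160.SQ

open Pool.Agent.TH115.GD (incl rs ak Sep Comp CompInf IsTower rs_mul)

section chi

variable {ℓ : ℕ} {K Ω Ω' : Type} [Field K] [Field Ω] [Field Ω'] [Algebra K Ω]
  [Algebra K Ω'] {f : K[X]} {ζ : K} (H : Hyps) (hg : Good ℓ ζ f)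

/-- `β` is a root of `f`. -/
def Rt (f : K[X]) (β : Ω) : Prop := aeval β f = 0

theorem Rt.map {β : Ω} (h : Rt f β) (φ : Ω →ₐ[K] Ω') : Rt f (φ β) := by
  unfold Rt at *
  rw [aeval_algHom_apply, h, map_zero]

theorem Rt.ev {β : Ω} (h : Rt f β) : (f.map (algebraMap K Ω)).eval β = 0 := by
  rw [eval_map_algebraMap]; exact h

theorem rt_of {β : Ω} (h : (f.map (algebraMap K Ω)).eval β = 0) : Rt f β := by
  rw [eval_map_algebraMap] at h; exact h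

/-- `x` is killed by `1 - σ`. -/
def Tor (hg : Good ℓ ζ f) (x : Jac ℓ f Ω) : Prop := pe hg Ω (1 - X) x = 0

omit H in
theorem tor_iff {x : Jac ℓ f Ω} : Tor hg x ↔ x = sg hg Ω x := by
  unfold Tor
  rw [pe_sub, pe_one, pe_X, sub_eq_zero]

variable {hg}

theorem Tor.add {x y : Jac ℓ f Ω} (hx : Tor hg x) (hy : Tor hg y) : Tor hg (x + y) := by
  unfold Tor at *
  rw [map_add, hx, hy, add_zero]

theorem Tor.sub {x y : Jac ℓ f Ω} (hx : Tor hg x) (hy : Tor hg y) : Tor hg (x - y) := by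
  unfold Tor at *
  rw [map_sub, hx, hy, sub_zero]

theorem Tor.zero : Tor hg (0 : Jac ℓ f Ω) := by
  unfold Tor
  rw [map_zero]

theorem Tor.map {x : Jac ℓ f Ω} (hx : Tor hg x) (φ : Ω →ₐ[K] Ω') : Tor hg (jm ℓ f φ x) := by
  unfold Tor at *
  rw [← jm_pe, hx, map_zero]

variable (hg)

/-- `z` is the value of the pairing of `x` and `β`. -/
def CJ (β z : Ω) (x : Jac ℓ f Ω) : Prop :=
  ∃ I : Ideal (CR ℓ (f.map (algebraMap K Ω))), IsCl Ω I x ∧ Chi (hg.up Ω) β z I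

include H

variable [IsSepClosed Ω]

omit H in
include hg in
theorem splits_up : (f.map (algebraMap K Ω)).Splits :=
  IsSepClosed.splits_of_separable _ (hg.up Ω).sep

theorem cj_exists {x : Jac ℓ f Ω} (hx : Tor hg x) {β : Ω} (hβ : Rt f β) : ∃ z, CJ hg β z x := by
  obtain ⟨I, hI, hIx⟩ := exists_cl H hg x
  have h1 := (cl_eq_iff H hg hIx (cl_sg H hg hIx)).1 ((tor_iff hg).1 hx)
  obtain ⟨z, hz⟩ := (H.chiA ℓ Ω _ _ (hg.up Ω) (splits_up hg)).1 I hI h1 β hβ.ev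
  exact ⟨z, I, hIx, hz⟩

omit [IsSepClosed Ω] in
/-- The pairing does not depend on the ideal. -/
theorem Chi_congr {I J : Ideal (CR ℓ (f.map (algebraMap K Ω)))} {x : Jac ℓ f Ω} (hI : IsCl Ω I x)
    (hJ : IsCl Ω J x) {β z : Ω} (h : Chi (hg.up Ω) β z I) : Chi (hg.up Ω) β z J := by
  obtain ⟨M, a, b, h1, h3⟩ := h
  refine ⟨M, a, b, ?_, h3⟩
  have h4 := (cl_eq_iff H hg hJ hI).1 rfl
  haveI := H.ring ℓ Ω _ _ (hg.up Ω)
  obtain ⟨u, v, hu, hv, e1⟩ := h4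
  obtain ⟨u', v', hu', hv', e2⟩ := h1
  refine ⟨u * u', v * v', mul_ne_zero hu hu', mul_ne_zero hv hv', ?_⟩
  rw [← Ideal.span_singleton_mul_span_singleton, ← Ideal.span_singleton_mul_span_singleton]
  calc Ideal.span {u} * Ideal.span {u'} * J = Ideal.span {u'} * (Ideal.span {u} * J) := by
        rw [mul_comm (Ideal.span {u}), mul_assoc]
    _ = Ideal.span {u'} * (Ideal.span {v} * I) := by rw [e1]
    _ = Ideal.span {v} * (Ideal.span {u'} * I) := by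
        rw [← mul_assoc, mul_comm (Ideal.span {u'}), mul_assoc]
    _ = Ideal.span {v} * (Ideal.span {v'} * M) := by rw [e2]
    _ = _ := by rw [mul_assoc]

theorem cj_unique {x : Jac ℓ f Ω} {β z z' : Ω} (hβ : Rt f β) (h : CJ hg β z x)
    (h' : CJ hg β z' x) : z = z' := by
  obtain ⟨I, hI, h1⟩ := h
  obtain ⟨J, hJ, h3⟩ := h'
  exact (H.chiA ℓ Ω _ _ (hg.up Ω) (splits_up hg)).2.1 I β z z' hI.ne hβ.ev h1
    (Chi_congr H hg hJ hI h3)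

theorem cj_pow {x : Jac ℓ f Ω} {β z : Ω} (hβ : Rt f β) (h : CJ hg β z x) : z ^ ℓ = 1 := by
  obtain ⟨I, hI, h1⟩ := h
  exact (H.chiA ℓ Ω _ _ (hg.up Ω) (splits_up hg)).2.2.1 I β z hI.ne hβ.ev h1

theorem cj_add {x y : Jac ℓ f Ω} {β z w : Ω} (hβ : Rt f β) (h : CJ hg β z x)
    (h' : CJ hg β w y) : CJ hg β (z * w) (x + y) := by
  obtain ⟨I, hI, h1⟩ := h
  obtain ⟨J, hJ, h3⟩ := h'
  exact ⟨I * J, cl_mul H hg hI hJ, (H.chiA ℓ Ω _ _ (hg.up Ω) (splits_up hg)).2.2.2.1 I J β z w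
    hI.ne hJ.ne hβ.ev h1 h3⟩

theorem cj_map {x : Jac ℓ f Ω} {β z : Ω} (hβ : Rt f β) (h : CJ hg β z x) (φ : Ω →ₐ[K] Ω') :
    CJ hg (φ β) (φ z) (jm ℓ f φ x) := by
  obtain ⟨I, hI, h1⟩ := h
  refine ⟨I.map (cm ℓ f φ), cl_map H hg hI φ, ?_⟩
  have h2 := H.chiF ℓ Ω Ω' (φ : Ω →+* Ω') _ _ _ (map_alg φ) (hg.up Ω) (splits_up hg) I β z hI.ne
    hβ.ev h1
  have e : (φ : Ω →+* Ω') (algebraMap K Ω ζ) = algebraMap K Ω' ζ := φ.commutes ζ
  have key : ∀ (ζ' : Ω') (hg' : Good ℓ ζ' (f.map (algebraMap K Ω'))) (ζ'' : Ω')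
      (hg'' : Good ℓ ζ'' (f.map (algebraMap K Ω'))), ζ' = ζ'' →
      Chi hg' ((φ : Ω →+* Ω') β) ((φ : Ω →+* Ω') z) (I.map (cm ℓ f φ)) →
      Chi hg'' (φ β) (φ z) (I.map (cm ℓ f φ)) := by
    rintro ζ' hg' _ hg'' rfl h
    exact h
  exact key _ _ _ _ e h2

theorem cj_prod {x : Jac ℓ f Ω} {z : Ω → Ω} (h : ∀ β, Rt f β → CJ hg β (z β) x) :
    ((f.map (algebraMap K Ω)).roots.map z).prod = 1 := by
  obtain ⟨I, hI, hIx⟩ := exists_cl H hg x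
  refine (H.chiA ℓ Ω _ _ (hg.up Ω) (splits_up hg)).2.2.2.2 I z hI fun β hβ => ?_
  obtain ⟨J, hJ, h1⟩ := h β (rt_of hβ)
  exact Chi_congr H hg hJ hIx h1

theorem cj_inj {x : Jac ℓ f Ω} (h : ∀ β, Rt f β → CJ hg β 1 x) : x = 0 := by
  obtain ⟨I, hI, hIx⟩ := exists_cl H hg x
  refine (cl_zero_iff H hg hIx).2 (H.chiI ℓ Ω _ _ (hg.up Ω) (splits_up hg) I hI fun β hβ => ?_)
  obtain ⟨J, hJ, h1⟩ := h β (rt_of hβ)
  exact Chi_congr H hg hJ hIx h1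

theorem cj_surj {z : Ω → Ω} (hz : ∀ β, Rt f β → z β ^ ℓ = 1)
    (hp : ((f.map (algebraMap K Ω)).roots.map z).prod = 1) :
    ∃ x : Jac ℓ f Ω, Tor hg x ∧ ∀ β, Rt f β → CJ hg β (z β) x := by
  obtain ⟨I, hI, h1, h3⟩ := H.chiS ℓ Ω _ _ (hg.up Ω) (splits_up hg) z
    (fun β hβ => hz β (rt_of hβ)) hp
  obtain ⟨x, hx⟩ := cl_exists H hg hI
  refine ⟨x, (tor_iff hg).2 ((cl_eq_iff H hg hx (cl_sg H hg hx)).2 h1), fun β hβ => ?_⟩
  exact ⟨I, hx, h3 β hβ.ev⟩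

omit H [IsSepClosed Ω] in
/-- The value of the pairing. -/
noncomputable def chi (β : Ω) (x : Jac ℓ f Ω) : Ω :=
  if h : ∃ z, CJ hg β z x then h.choose else 1

theorem chi_spec {x : Jac ℓ f Ω} (hx : Tor hg x) {β : Ω} (hβ : Rt f β) : CJ hg β (chi hg β x) x := by
  have h := cj_exists H hg hx hβ
  unfold chi
  rw [dif_pos h]
  exact h.choose_spec

theorem chi_eq {x : Jac ℓ f Ω} {β z : Ω} (hx : Tor hg x) (hβ : Rt f β) (h : CJ hg β z x) :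
    chi hg β x = z := cj_unique H hg hβ (chi_spec H hg hx hβ) h

theorem chi_pow {x : Jac ℓ f Ω} (hx : Tor hg x) {β : Ω} (hβ : Rt f β) : chi hg β x ^ ℓ = 1 :=
  cj_pow H hg hβ (chi_spec H hg hx hβ)

theorem chi_ne {x : Jac ℓ f Ω} (hx : Tor hg x) {β : Ω} (hβ : Rt f β) : chi hg β x ≠ 0 := by
  intro h
  have := chi_pow H hg hx hβ
  rw [h, zero_pow hg.ne] at this
  exact zero_ne_one this

theorem chi_add {x y : Jac ℓ f Ω} (hx : Tor hg x) (hy : Tor hg y) {β : Ω} (hβ : Rt f β) :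
    chi hg β (x + y) = chi hg β x * chi hg β y :=
  chi_eq H hg (hx.add hy) hβ (cj_add H hg hβ (chi_spec H hg hx hβ) (chi_spec H hg hy hβ))

theorem chi_zero {β : Ω} (hβ : Rt f β) : chi hg β (0 : Jac ℓ f Ω) = 1 := by
  have h1 := chi_add H hg (Tor.zero (hg := hg) (Ω := Ω)) Tor.zero hβ
  rw [add_zero] at h1
  exact (mul_eq_left₀ (chi_ne H hg Tor.zero hβ)).1 h1.symm

theorem chi_sub {x y : Jac ℓ f Ω} (hx : Tor hg x) (hy : Tor hg y) {β : Ω} (hβ : Rt f β) :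
    chi hg β (x - y) = chi hg β x / chi hg β y := by
  have h1 := chi_add H hg (hx.sub hy) hy hβ
  rw [sub_add_cancel] at h1
  rw [h1, mul_div_cancel_right₀ _ (chi_ne H hg hy hβ)]

theorem chi_map [IsSepClosed Ω'] {x : Jac ℓ f Ω} (hx : Tor hg x) {β : Ω} (hβ : Rt f β)
    (φ : Ω →ₐ[K] Ω') : chi hg (φ β) (jm ℓ f φ x) = φ (chi hg β x) :=
  chi_eq H hg (hx.map φ) (hβ.map φ) (cj_map H hg hβ (chi_spec H hg hx hβ) φ)

/-- The values are roots of unity over `K`. -/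
theorem chi_mem {x : Jac ℓ f Ω} (hx : Tor hg x) {β : Ω} (hβ : Rt f β) :
    ∃ i : ℕ, chi hg β x = algebraMap K Ω (ζ ^ i) := by
  haveI := NeZero.mk hg.ne
  obtain ⟨i, -, hi⟩ := (hg.up Ω).root.eq_pow_of_pow_eq_one (chi_pow H hg hx hβ)
  exact ⟨i, by rw [← hi, map_pow]⟩

theorem chi_fix' {x : Jac ℓ f Ω} (hx : Tor hg x) {β : Ω} (hβ : Rt f β) (φ : Ω →ₐ[K] Ω) :
    φ (chi hg β x) = chi hg β x := by
  obtain ⟨i, hi⟩ := chi_mem H hg hx hβ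
  rw [hi, φ.commutes]

theorem chi_prod {x : Jac ℓ f Ω} (hx : Tor hg x) :
    ((f.map (algebraMap K Ω)).roots.map fun β => chi hg β x).prod = 1 :=
  cj_prod H hg fun β hβ => chi_spec H hg hx hβ

theorem chi_inj {x : Jac ℓ f Ω} (hx : Tor hg x) (h : ∀ β, Rt f β → chi hg β x = 1) : x = 0 :=
  cj_inj H hg fun β hβ => h β hβ ▸ chi_spec H hg hx hβ

theorem chi_ext {x y : Jac ℓ f Ω} (hx : Tor hg x) (hy : Tor hg y)
    (h : ∀ β, Rt f β → chi hg β x = chi hg β y) : x = y := by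
  rw [← sub_eq_zero]
  refine chi_inj H hg (hx.sub hy) fun β hβ => ?_
  rw [chi_sub H hg hx hy hβ, h β hβ, div_self (chi_ne H hg hy hβ)]

theorem chi_surj {z : Ω → Ω} (hz : ∀ β, Rt f β → z β ^ ℓ = 1)
    (hp : ((f.map (algebraMap K Ω)).roots.map z).prod = 1) :
    ∃ x : Jac ℓ f Ω, Tor hg x ∧ ∀ β, Rt f β → chi hg β x = z β := by
  obtain ⟨x, hx, h⟩ := cj_surj H hg hz hp
  exact ⟨x, hx, fun β hβ => chi_eq H hg hx hβ (h β hβ)⟩

end chi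

end Pool.Agent.Y160.SQ
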