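import Mathlib

/-!
# Superelliptic curves: the coordinate ring, the twist, the change of constants
-/

set_option autoImplicit false
set_option linter.all false

open Polynomial
open scoped nonZeroDivisors

namespace Pool.Agent.Y160.SQ

universe u v w

/-- The coordinate ring `E[x, y] / (y ^ ℓ - f(x))` of the affine curve `y ^ ℓ = f(x)`. -/
abbrev CR (ℓ : ℕ) {E : Type u} [CommRing E] (f : E[X]) : Type u :=
  AdjoinRoot (X ^ ℓ - C f : E[X][X])

/-- The function `y`. -/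
noncomputable abbrev yy (ℓ : ℕ) {E : Type u} [CommRing E] (f : E[X]) : CR ℓ f :=
  AdjoinRoot.root (X ^ ℓ - C f : E[X][X])

/-- A polynomial in `x` as a function on the curve. -/
noncomputable abbrev xp (ℓ : ℕ) {E : Type u} [CommRing E] (f : E[X]) (p : E[X]) : CR ℓ f :=
  AdjoinRoot.of (X ^ ℓ - C f : E[X][X]) p

theorem yy_pow (ℓ : ℕ) {E : Type u} [CommRing E] (f : E[X]) : yy ℓ f ^ ℓ = xp ℓ f f := by
  have h := AdjoinRoot.eval₂_root (X ^ ℓ - C f : E[X][X])
  rw [eval₂_sub, eval₂_X_pow, eval₂_C, sub_eq_zero] at h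
  exact h

/-- Change of constants: the homomorphism given by `φ : E → E'`, `x ↦ x`, `y ↦ y`. -/
noncomputable def crMap (ℓ : ℕ) {E : Type u} {E' : Type v} [CommRing E] [CommRing E']
    (φ : E →+* E') (f : E[X]) (f' : E'[X]) (h : f.map φ = f') : CR ℓ f →+* CR ℓ f' :=
  AdjoinRoot.lift ((AdjoinRoot.of (X ^ ℓ - C f' : E'[X][X])).comp (mapRingHom φ)) (yy ℓ f') (by
    rw [eval₂_sub, eval₂_X_pow, eval₂_C, yy_pow, ← h]
    exact sub_self _)

/-- The automorphism `x ↦ x`, `y ↦ ζ y`. -/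
noncomputable def tw (ℓ : ℕ) {E : Type u} [CommRing E] (f : E[X]) (ζ : E) (h : ζ ^ ℓ = 1) :
    CR ℓ f →+* CR ℓ f :=
  AdjoinRoot.lift (AdjoinRoot.of (X ^ ℓ - C f : E[X][X])) (xp ℓ f (C ζ) * yy ℓ f) (by
    rw [eval₂_sub, eval₂_X_pow, eval₂_C, mul_pow, yy_pow, ← map_pow, ← C_pow, h, C_1, map_one,
      one_mul]
    exact sub_self _)

/-- The value of a function at the ramified point `(β, 0)`, where `f(β) = 0`. -/
noncomputable def evR (ℓ : ℕ) (hℓ : ℓ ≠ 0) {E : Type u} [CommRing E] (f : E[X]) (β : E)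
    (h : f.eval β = 0) : CR ℓ f →+* E :=
  AdjoinRoot.lift (evalRingHom β) 0 (by
    rw [eval₂_sub, eval₂_X_pow, eval₂_C, zero_pow hℓ, coe_evalRingHom, h, sub_zero])

/-- The hypotheses: `ℓ` is a prime power, `ζ` a primitive root of unity of order `ℓ`, `f` is monic and
separable of degree prime to `ℓ`. -/
structure Good (ℓ : ℕ) {E : Type u} [Field E] (ζ : E) (f : E[X]) : Prop where
  pp : IsPrimePow ℓ
  root : IsPrimitiveRoot ζ ℓ
  monic : f.Monic
  sep : f.Separable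
  cop : ℓ.Coprime f.natDegree

theorem Good.pos {ℓ : ℕ} {E : Type u} [Field E] {ζ : E} {f : E[X]} (hg : Good ℓ ζ f) : 0 < ℓ :=
  hg.pp.pos

theorem Good.ne {ℓ : ℕ} {E : Type u} [Field E] {ζ : E} {f : E[X]} (hg : Good ℓ ζ f) : ℓ ≠ 0 :=
  hg.pp.ne_zero

theorem Good.one_lt {ℓ : ℕ} {E : Type u} [Field E] {ζ : E} {f : E[X]} (hg : Good ℓ ζ f) : 1 < ℓ :=
  hg.pp.one_lt

/-- The twist `x ↦ x`, `y ↦ ζ y` (the automorphism `σ`). -/
noncomputable abbrev Good.tw {ℓ : ℕ} {E : Type u} [Field E] {ζ : E} {f : E[X]} (hg : Good ℓ ζ f) :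
    CR ℓ f →+* CR ℓ f := Pool.Agent.Y160.SQ.tw ℓ f ζ hg.root.pow_eq_one

theorem Good.map {ℓ : ℕ} {E : Type u} {E' : Type v} [Field E] [Field E'] {ζ : E} {f : E[X]}
    (hg : Good ℓ ζ f) (φ : E →+* E') {f' : E'[X]} (h : f.map φ = f') : Good ℓ (φ ζ) f' := by
  subst h
  refine ⟨hg.pp, hg.root.map_of_injective φ.injective, hg.monic.map φ, hg.sep.map, ?_⟩
  rw [natDegree_map]
  exact hg.cop

/-- The degree of a function: the degree of its norm. -/
noncomputable def dg (ℓ : ℕ) {E : Type u} [Field E] (f : E[X]) (a : CR ℓ f) : ℕ :=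
  (Algebra.norm E[X] a).natDegree

open scoped Classical in
/-- The value of a function at the ramified point `(β, 0)` (zero if `β` is not a root of `f`). -/
noncomputable def ev (ℓ : ℕ) {E : Type u} [Field E] (f : E[X]) (β : E) (a : CR ℓ f) : E :=
  if h : ℓ ≠ 0 ∧ f.eval β = 0 then evR ℓ h.1 f β h.2 a else 0

open scoped Classical in
/-- The normalised value at `(β, 0)`: the product of `a(β, 0) / a(β', 0)` over all the roots
`β'` of `f`. -/
noncomputable def rat (ℓ : ℕ) {E : Type u} [Field E] (f : E[X]) (β : E) (a : CR ℓ f) : E :=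
  ∏ β' ∈ f.roots.toFinset, (ev ℓ f β a / ev ℓ f β' a)

/-- `a` does not vanish at the ramified points. -/
def Cop (ℓ : ℕ) {E : Type u} [Field E] (f : E[X]) (a : CR ℓ f) : Prop :=
  ∀ β, f.eval β = 0 → ev ℓ f β a ≠ 0

/-- Two ideals are in the same class: `(a) I = (b) J` with nonzero `a`, `b`. -/
def Eqv {R : Type u} [CommRing R] (I J : Ideal R) : Prop :=
  ∃ a b : R, a ≠ 0 ∧ b ≠ 0 ∧ Ideal.span {a} * I = Ideal.span {b} * J

/-- The pairing of the class of the ideal `I` with the ramified point `(β, 0)`. Here the class of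
`I` is fixed by the twist `σ`; choose `J` in the class of `I` and `a`, `b`, all prime to the
ramified points, with `(a) J = (b) σ J`. Then `z` is the normalised value of `a / b` at `(β, 0)`. -/
def Chi {ℓ : ℕ} {E : Type u} [Field E] {ζ : E} {f : E[X]} (hg : Good ℓ ζ f) (β z : E)
    (I : Ideal (CR ℓ f)) : Prop :=
  ∃ (J : Ideal (CR ℓ f)) (a b : CR ℓ f), Eqv I J ∧ J ⊔ Ideal.span {yy ℓ f} = ⊤ ∧
    Cop ℓ f a ∧ Cop ℓ f b ∧ Ideal.span {a} * J = Ideal.span {b} * J.map hg.tw ∧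
    z * rat ℓ f β b = rat ℓ f β a

/-- `g` is a product of powers `p ^ (ℓ / d)` of monic irreducible polynomials `p` prime to `f`, such
that `d` divides `ℓ` and `f` is a `d`-th power modulo `p`. -/
def LP (ℓ : ℕ) {E : Type u} [Field E] (f g : E[X]) : Prop :=
  ∃ s : Multiset (ℕ × E[X]),
    (∀ x ∈ s, x.2.Monic ∧ Irreducible x.2 ∧ ¬ x.2 ∣ f ∧ x.1 ∣ ℓ ∧ ∃ c : E[X], x.2 ∣ f - c ^ x.1) ∧
    g = (s.map fun x => x.2 ^ (ℓ / x.1)).prod

end Pool.Agent.Y160.SQ
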