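import Pool.Agent.Y160.SQ.JI

/-!
# The element `1 - σ`: divisibility, descent of fixed classes
-/

set_option autoImplicit false
set_option linter.all false

open Polynomial IsDedekindDomain
open scoped nonZeroDivisors

namespace Pool.Agent.Y160.SQ

open Pool.Agent.TH115.GD (incl rs ak Sep Comp CompInf IsTower)

section poly

/-- The sum `1 + X + ... + X ^ (ℓ - 1)`. -/
noncomputable def nrm (ℓ : ℕ) : ℤ[X] := ∑ i ∈ Finset.range ℓ, X ^ i

/-- The polynomial `U` with `ℓ = U (1 - X) + nrm`. -/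
noncomputable def uu (ℓ : ℕ) : ℤ[X] := ∑ i ∈ Finset.range ℓ, ∑ j ∈ Finset.range i, X ^ j

/-- `ℓ` is divisible by `1 - σ`. -/
theorem uu_eq (ℓ : ℕ) : (ℓ : ℤ[X]) = uu ℓ * (1 - X) + nrm ℓ := by
  unfold uu nrm
  rw [Finset.sum_mul, ← Finset.sum_add_distrib]
  have h : ∀ i ∈ Finset.range ℓ, (∑ j ∈ Finset.range i, (X : ℤ[X]) ^ j) * (1 - X) + X ^ i = 1 := by
    intro i _
    rw [geom_sum_mul_neg]
    ring
  rw [Finset.sum_congr rfl h]
  simp

/-- `(1 - σ) ^ ℓ` is divisible by `p`, if `ℓ` is a power of `p`. -/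
theorem exists_W {p m ℓ : ℕ} (hp : p.Prime) (hℓ : ℓ = p ^ m) : ∃ W V : ℤ[X],
    (1 - X) ^ ℓ = (p : ℤ[X]) * W + V * (1 - X ^ ℓ) := by
  haveI := Fact.mk hp
  set φ := Polynomial.mapRingHom (Int.castRingHom (ZMod p)) with hφ
  have hX : φ X = X := by rw [hφ, coe_mapRingHom, map_X]
  have h5 : φ ((1 - X) ^ ℓ - (1 - X ^ ℓ)) = 0 := by
    rw [map_sub, map_pow, map_sub, map_sub, map_pow, map_one, hX, hℓ, sub_pow_char_pow, one_pow,
      sub_self]
  have h6 : C ((p : ℤ)) ∣ ((1 : ℤ[X]) - X) ^ ℓ - (1 - X ^ ℓ) := by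
    rw [C_dvd_iff_dvd_coeff]
    intro i
    have h7 := congrArg (fun q => q.coeff i) h5
    simp only [hφ, coe_mapRingHom, coeff_map, coeff_zero] at h7
    exact (ZMod.intCast_zmod_eq_zero_iff_dvd _ _).1 h7
  obtain ⟨W, hW⟩ := h6
  have h9 : (C (p : ℤ) : ℤ[X]) = (p : ℤ[X]) := by simp
  refine ⟨W, 1, ?_⟩
  rw [← h9]
  linear_combination hW

end poly

section lam

variable {ℓ : ℕ} {K Ω Ω' : Type} [Field K] [Field Ω] [Field Ω'] [Algebra K Ω]
  [Algebra K Ω'] {f : K[X]} {ζ : K} (H : Hyps) (hg : Good ℓ ζ f)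

theorem sg_pow_ℓ (x : Jac ℓ f Ω) : pe hg Ω (X ^ ℓ) x = x := by
  have key : ∀ n : ℕ, ∀ x : Jac ℓ f Ω, pe hg Ω (X ^ n) x =
      Additive.ofMul (CommRing.Pic.mapRingHom ((hg.up Ω).tw ^ n) x.toMul) := by
    intro n
    induction n with
    | zero =>
      intro x
      rw [pow_zero, pe_one, pow_zero]
      have : (1 : CR ℓ (f.map (algebraMap K Ω)) →+* _) = RingHom.id _ := rfl
      rw [this, CommRing.Pic.mapRingHom_id]
      rfl
    | succ n ih =>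
      intro x
      rw [pow_succ, pe_mul, ih, pe_X, pow_succ]
      show Additive.ofMul (CommRing.Pic.mapRingHom ((hg.up Ω).tw ^ n)
        (CommRing.Pic.mapRingHom (hg.up Ω).tw x.toMul)) = _
      rw [CommRing.Pic.mapRingHom_mapRingHom]
      rfl
  rw [key]
  have h1 : (hg.up Ω).tw ^ ℓ = RingHom.id _ := tw_pow_ℓ _
  rw [h1, CommRing.Pic.mapRingHom_id]
  rfl

include H

/-- The sum of the twists of a class is trivial. -/
theorem pe_nrm (x : Jac ℓ f Ω) : pe hg Ω (nrm ℓ) x = 0 := by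
  obtain ⟨I, hI, hx⟩ := exists_cl H hg x
  obtain ⟨⟨g, hgm, h1⟩, -⟩ := H.nmi ℓ Ω _ _ (hg.up Ω) I hI
  -- the class of the product
  have hpow : ∀ n : ℕ, IsCl Ω (I.map ((hg.up Ω).tw ^ n)) (pe hg Ω (X ^ n) x) := by
    intro n
    induction n with
    | zero =>
      rw [pow_zero, pow_zero, pe_one]
      have : (1 : CR ℓ (f.map (algebraMap K Ω)) →+* _) = RingHom.id _ := rfl
      rw [this, Ideal.map_id]
      exact hx
    | succ n ih =>
      have h3 := cl_sg H hg ih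
      rw [Ideal.map_map] at h3
      have e1 : (hg.up Ω).tw.comp ((hg.up Ω).tw ^ n) = (hg.up Ω).tw ^ (n + 1) := by
        rw [pow_succ']
        rfl
      rw [e1] at h3
      have e3 : (X : ℤ[X]) ^ (n + 1) = X * X ^ n := pow_succ' X n
      rw [e3, pe_mul, pe_X]
      exact h3
  have hprod : ∀ n : ℕ, IsCl Ω (∏ i ∈ Finset.range n, I.map ((hg.up Ω).tw ^ i))
      (pe hg Ω (∑ i ∈ Finset.range n, X ^ i) x) := by
    intro n
    induction n with
    | zero =>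
      rw [Finset.prod_range_zero, Finset.sum_range_zero, Ideal.one_eq_top]
      have : pe hg Ω 0 x = 0 := by unfold pe; rw [map_zero]; rfl
      rw [this]
      exact cl_top H hg
    | succ n ih =>
      rw [Finset.prod_range_succ, Finset.sum_range_succ, pe_add]
      exact cl_mul H hg ih (hpow n)
  have h2 := hprod ℓ
  rw [h1] at h2
  haveI := H.ring ℓ Ω _ _ (hg.up Ω)
  have h3 : pe hg Ω (nrm ℓ) x = 0 := by
    refine (cl_zero_iff H hg h2).2 ⟨1, xp ℓ _ g, one_ne_zero, ?_, ?_⟩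
    · intro h
      exact hgm.ne_zero (xp_inj hg.ne (by rw [h, xp_zero]))
    · rw [Ideal.span_singleton_one, Ideal.top_mul, Ideal.mul_top]
  exact h3

/-- `ℓ = U (1 - σ)` on `J(Ω)`. -/
theorem uu_mul (hg : Good ℓ ζ f) (x : Jac ℓ f Ω) :
    pe hg Ω (uu ℓ) (pe hg Ω (1 - X) x) = ℓ • x := by
  rw [← pe_nat hg, uu_eq, pe_add, pe_mul, pe_nrm H, add_zero]

theorem uu_mul' (hg : Good ℓ ζ f) (x : Jac ℓ f Ω) :
    pe hg Ω (1 - X) (pe hg Ω (uu ℓ) x) = ℓ • x := by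
  rw [pe_comm, uu_mul H]

omit H in
/-- `(1 - σ) ^ ℓ = p W` on `J(Ω)`. -/
theorem exists_W' (hg : Good ℓ ζ f) {p m : ℕ} (hp : p.Prime) (hℓ : ℓ = p ^ m) :
    ∃ W : ℤ[X], ∀ (Ω : Type) [Field Ω] [Algebra K Ω] (x : Jac ℓ f Ω),
    pe hg Ω ((1 - X) ^ ℓ) x = p • pe hg Ω W x := by
  obtain ⟨W, V, h⟩ := exists_W hp hℓ
  refine ⟨W, fun Ω _ _ x => ?_⟩
  rw [h, pe_add, pe_mul hg V, pe_mul, pe_nat, pe_sub, sg_pow_ℓ, pe_one, sub_self, map_zero,
    add_zero]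

/-- Divisibility by `1 - σ`. -/
theorem lam_surj [IsSepClosed Ω] (x : Jac ℓ f Ω) : ∃ y : Jac ℓ f Ω, pe hg Ω (1 - X) y = x := by
  obtain ⟨I, hI, hx⟩ := exists_cl H hg x
  obtain ⟨A, hA, h⟩ := H.div ℓ Ω _ _ (hg.up Ω) I hI
  obtain ⟨y, hy⟩ := cl_exists H hg hA
  refine ⟨y, ?_⟩
  have h1 := cl_mul H hg hx (cl_sg H hg hy)
  have h2 := (cl_eq_iff H hg h1 hy).2 h
  rw [pe_sub, pe_one, pe_X, sub_eq_iff_eq_add]
  exact h2.symm

theorem lam_pow_surj [IsSepClosed Ω] (n : ℕ) (x : Jac ℓ f Ω) :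
    ∃ y : Jac ℓ f Ω, pe hg Ω ((1 - X) ^ n) y = x := by
  induction n generalizing x with
  | zero => exact ⟨x, by rw [pow_zero, pe_one]⟩
  | succ n ih =>
    obtain ⟨z, hz⟩ := ih x
    obtain ⟨y, hy⟩ := lam_surj H hg z
    exact ⟨y, by rw [pow_succ, pe_mul, hy, hz]⟩

end lam

section desc

variable {ℓ : ℕ} {K E Ω : Type} [Field K] [Field E] [Field Ω] [Algebra K E] [Algebra E Ω]
  [Algebra K Ω] [IsScalarTower K E Ω] [IsGalois E Ω]
  {f : K[X]} {ζ : K} (H : Hyps) (hg : Good ℓ ζ f)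

include H hg

/-- A class which is fixed by the Galois group comes from the base. -/
theorem fixed_class (x : Jac ℓ f Ω) (hx : ∀ τ : Ω ≃ₐ[E] Ω, jm ℓ f (rs K τ) x = x) :
    ∃ y : Jac ℓ f E, jm ℓ f (incl K E Ω) y = x := by
  obtain ⟨I, hI, hIx⟩ := exists_cl H hg x
  have hf : (f.map (algebraMap K E)).map (algebraMap E Ω) = f.map (algebraMap K Ω) := by
    rw [Polynomial.map_map, ← IsScalarTower.algebraMap_eq]
  obtain ⟨J, hJ, hJI⟩ := H.desc ℓ E Ω _ _ _ hf (hg.up E)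
    (fun τ => map_alg (rs K τ)) I hI (fun τ => by
      have h1 := cl_map H hg hIx (rs K τ)
      exact (cl_eq_iff H hg h1 hIx).1 (hx τ))
  obtain ⟨y, hy⟩ := cl_exists (Ω := E) H hg hJ
  refine ⟨y, ?_⟩
  exact (cl_eq_iff H hg (cl_map H hg hy (incl K E Ω)) hIx).2 hJI

end desc

end Pool.Agent.Y160.SQ
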