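import Pool.Agent.Y160.SQ.Loc

/-!
# The Kummer generator over a completion
-/

set_option autoImplicit false
set_option linter.all false

open Polynomial IsDedekindDomain
open scoped nonZeroDivisors Classical

namespace Pool.Agent.Y160.SQ

open Pool.Agent.TH115.GD (incl rs ak Sep Comp CompInf IsTower rs_mul Preserves exists_conj lift_fix
  cont_rs exists_restrict exists_aut exists_kappa)
open Pool.Agent.W309.TD (locConst_apply compare)

section lpc

variable {L : Type} [Field L] {ℓ : ℕ} {f : L[X]}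

theorem lp_coprime {g : L[X]} (hg : LP ℓ f g) : IsCoprime g f := by
  obtain ⟨s, hps, rfl⟩ := hg
  induction s using Multiset.induction_on with
  | empty => rw [Multiset.map_zero, Multiset.prod_zero]; exact isCoprime_one_left
  | cons p s ih =>
    rw [Multiset.map_cons, Multiset.prod_cons]
    obtain ⟨h1, h3, h4, -⟩ := hps p (Multiset.mem_cons_self p s)
    exact IsCoprime.mul_left (h3.coprime_iff_not_dvd.2 h4).pow_left
      (ih fun q hq => hps q (Multiset.mem_cons_of_mem hq))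

end lpc

section rep

variable {ℓ : ℕ} {K L : Type} [Field K] [Field L] [Algebra K L] {f : K[X]} {ζ : K} (H : Hyps)
  (hg : Good ℓ ζ f)

include H hg

/-- A class over `L` is given by an ideal prime to the ramified points, with its norm. -/
theorem exists_rep (Q : Jac ℓ f L) : ∃ (I : Ideal (CR ℓ (f.map (algebraMap K L)))) (G : L[X]),
    IsCl L I Q ∧ I ⊔ Ideal.span {yy ℓ (f.map (algebraMap K L))} = ⊤ ∧
    LP ℓ (f.map (algebraMap K L)) G ∧
    ∏ i ∈ Finset.range ℓ, I.map ((hg.up L).tw ^ i) = Ideal.span {xp ℓ _ G} := by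
  obtain ⟨I0, hI0, h0⟩ := exists_cl H hg Q
  obtain ⟨I, hI, hIc⟩ := H.move ℓ L _ _ (hg.up L) I0 hI0
  haveI := H.ring ℓ L _ _ (hg.up L)
  have hIne : I ≠ ⊥ := by
    rintro rfl
    obtain ⟨a, b, ha, hb, h⟩ := hI
    rw [Ideal.mul_bot, Ideal.mul_eq_bot, Ideal.span_singleton_eq_bot] at h
    rcases h with h | h
    · exact ha h
    · exact hI0 h
  obtain ⟨y, hy⟩ := cl_exists H hg hIne
  have e := (cl_eq_iff H hg h0 hy).2 hI
  subst e
  obtain ⟨G, hG, hN⟩ := (H.nmi ℓ L _ _ (hg.up L) I hIne).2 hIc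
  exact ⟨I, G, hy, hIc, hG, hN⟩

end rep

section locC

variable {ℓ : ℕ} {K F Ω L Ω' E M : Type} [Field K] [Field F] [Field Ω] [Field L] [Field Ω']
  [Field E] [Field M] [Algebra K F] [Algebra F Ω] [Algebra K Ω] [IsScalarTower K F Ω]
  [IsGalois F Ω] [IsSepClosed Ω]
  [Algebra K L] [Algebra F L] [IsScalarTower K F L]
  [Algebra L Ω'] [Algebra K Ω'] [Algebra F Ω'] [IsScalarTower K L Ω'] [IsScalarTower F L Ω']
  [IsScalarTower K F Ω'] [IsGalois L Ω']
  [Algebra K E] [Algebra F E] [IsScalarTower K F E]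
  [Algebra F M] [Algebra M Ω] [IsScalarTower F M Ω] [Algebra M E] [IsScalarTower F M E]
  {f : K[X]} {ζ : K} (H : Hyps) (hg : Good ℓ ζ f)

include H hg

theorem locC (Ω'' : Type) [Field Ω''] [Algebra E Ω''] [Algebra K Ω''] [Algebra F Ω'']
    [IsScalarTower K E Ω''] [IsScalarTower K F Ω''] [IsScalarTower F E Ω''] [IsGalois E Ω'']
    [IsSepClosed Ω''] {a : Ω} {θ : M} (ha : Rt f a)
    (hθ : algebraMap M Ω θ = a) (j : L →+* E)
    (hj : ∀ x : F, j (algebraMap F L x) = algebraMap F E x)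
    {c : (Ω ≃ₐ[F] Ω) → Jac ℓ f Ω} (hc : IsCoc ℓ f c) (hc2 : ∀ σ, Tor hg (c σ))
    (hloc : LocTriv ℓ f L Ω' c) {t : Ω} {z : M} (ht : t ≠ 0) (hz : t ^ ℓ = algebraMap M Ω z)
    (hk : ∀ σ : Ω ≃ₐ[F] Ω, σ a = a → σ t = chi hg a (c σ) * t) :
    ∃ (g0 : E) (G : L[X]) (y0 : L), g0 ≠ 0 ∧ y0 ≠ 0 ∧ LP ℓ (f.map (algebraMap K L)) G ∧
      (algebraMap M E z * (j y0) ^ ℓ =
          g0 ^ ℓ * ((G.map j).eval (algebraMap M E θ)) ^ f.natDegree ∨
        algebraMap M E z * (j y0) ^ ℓ =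
          -(g0 ^ ℓ * ((G.map j).eval (algebraMap M E θ)) ^ f.natDegree)) := by
  obtain ⟨κ, hκ1, hκ2⟩ := exists_kappa (F := F) (L := L) (Ω' := Ω') (E := E) (Ω'' := Ω'') j hj
  -- the embedding
  obtain ⟨i, hi⟩ : ∃ i : Ω →ₐ[F] Ω'', ∀ m : M, i (algebraMap M Ω m) =
      algebraMap E Ω'' (algebraMap M E m) := by
    letI : Algebra M Ω'' := ((algebraMap E Ω'').comp (algebraMap M E)).toAlgebra
    haveI : Algebra.IsSeparable M Ω := Algebra.isSeparable_tower_top_of_isSeparable F M Ω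
    let i0 : Ω →ₐ[M] Ω'' := IsSepClosed.lift
    refine ⟨{ i0.toRingHom with commutes' := fun x => ?_ }, fun m => i0.commutes m⟩
    show i0 (algebraMap F Ω x) = _
    rw [IsScalarTower.algebraMap_apply F M Ω, i0.commutes]
    show algebraMap E Ω'' (algebraMap M E (algebraMap F M x)) = _
    rw [← IsScalarTower.algebraMap_apply F M E, ← IsScalarTower.algebraMap_apply F E Ω'']
  obtain ⟨P, Q, hPQ, hP⟩ := transfer (E := E) H hg hc hc2 hloc κ hκ2 i
  choose res hres using exists_restrict (F := F) (Ω := Ω) (L := E) (Ω' := Ω'') i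
  set i' : Ω →ₐ[K] Ω'' := i.restrictScalars K with hi'
  have hia : i a = algebraMap E Ω'' (algebraMap M E θ) := by rw [← hθ, hi]
  have hfix : ∀ τ : Ω'' ≃ₐ[E] Ω'', res τ a = a := by
    intro τ
    apply i.injective
    show i (res τ a) = i a
    rw [← hres, hia, τ.commutes]
  have hT : ∀ τ : Ω'' ≃ₐ[E] Ω'', jm ℓ f i' (c (res τ)) = jm ℓ f (rs K τ) P - P :=
    fun τ => hP τ (res τ) (hres τ)
  have hTT : ∀ τ : Ω'' ≃ₐ[E] Ω'', Tor hg (jm ℓ f (rs K τ) P - P) := by
    intro τ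
    rw [← hT]
    exact (hc2 _).map i'
  have ha' : Rt f (i' a) := ha.map i'
  -- the `L`-algebra
  letI : Algebra L Ω'' := ((algebraMap E Ω'').comp j).toAlgebra
  haveI : IsScalarTower K L Ω'' := IsScalarTower.of_algebraMap_eq fun x => by
    show algebraMap K Ω'' x = algebraMap E Ω'' (j (algebraMap K L x))
    rw [IsScalarTower.algebraMap_apply K F L, hj, ← IsScalarTower.algebraMap_apply K F E,
      ← IsScalarTower.algebraMap_apply K E Ω'']
  have hinc : (κ.restrictScalars K).comp (incl K L Ω') = incl K L Ω'' :=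
    AlgHom.ext fun x => hκ1 x
  rw [hinc] at hPQ
  obtain ⟨I, G, hIQ, hIc, hG, hN⟩ := exists_rep H hg Q
  obtain ⟨t', ht1, ht2⟩ := kcJ H hg hIQ hIc (lp_coprime hG) hN hPQ
  obtain ⟨ht10, hG0, hteq⟩ := ht1 (i' a) ha'
  have A : ∀ τ : Ω'' ≃ₐ[E] Ω'', τ (i t) = chi hg (i' a) (jm ℓ f (rs K τ) P - P) * i t := by
    intro τ
    rw [hres, hk _ (hfix τ), map_mul, ← hT, chi_map H hg (hc2 _) ha i']
    rfl
  have B : ∀ τ : Ω'' ≃ₐ[E] Ω'', τ (t' (i' a)) = chi hg (i' a) (jm ℓ f (rs K τ) P - P) *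
      t' (i' a) := by
    intro τ
    let τL : Ω'' ≃ₐ[L] Ω'' := AlgEquiv.ofRingEquiv (f := τ.toRingEquiv) (fun y => τ.commutes (j y))
    have e1 : rs K τL = rs K τ := AlgHom.ext fun x => rfl
    have e2 : τL (i' a) = i' a := by
      show τ (i a) = i a
      rw [hia, τ.commutes]
    have h1 := ht2 τL (i' a) ha' (by rw [e1]; exact hTT τ)
    rw [e1, e2] at h1
    exact h1
  obtain ⟨g0, hg0, q⟩ := compare (K := E) ((map_ne_zero i).2 ht) ht10 _
    (fun τ => chi_ne H hg (hTT τ) ha') A B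
  -- the norm
  have hs : ((f.map (algebraMap K L)).map (algebraMap L Ω'')).Splits := by
    rw [map_L]; exact splits_up hg
  obtain ⟨y0, hy0⟩ := lp_norm (hg.up L).monic hs hG
  rw [map_L (K := K)] at hy0
  have hy0' : algebraMap L Ω'' (y0 ^ ℓ) = algebraMap E Ω'' (j y0) ^ ℓ := by
    rw [map_pow]; rfl
  have hGθ : aeval (i' a) G = algebraMap E Ω'' ((G.map j).eval (algebraMap M E θ)) := by
    have h1 : (i' a : Ω'') = algebraMap E Ω'' (algebraMap M E θ) := hia
    rw [h1, aeval_def, eval_map, hom_eval₂]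
    rfl
  have q2 : algebraMap E Ω'' (algebraMap M E z) = algebraMap E Ω'' g0 ^ ℓ * t' (i' a) ^ ℓ := by
    rw [← mul_pow, ← q, ← map_pow, hz, hi]
  have injE := (algebraMap E Ω'').injective
  have hy00 : y0 ≠ 0 := by
    rintro rfl
    rw [zero_pow hg.ne, map_zero, neg_zero, or_self] at hy0
    rw [hy0, mul_zero] at hteq
    exact pow_ne_zero _ hG0 hteq.symm
  refine ⟨g0, G, y0, hg0, hy00, hG, ?_⟩
  rcases hy0 with hy | hy
  · left
    apply injE
    rw [map_mul, map_mul, map_pow, map_pow, map_pow, q2, ← hGθ, ← hteq, hy, hy0']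
    ring
  · right
    apply injE
    rw [map_neg, map_mul, map_mul, map_pow, map_pow, map_pow, q2, ← hGθ, ← hteq, hy, hy0']
    ring

end locC

end Pool.Agent.Y160.SQ
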