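import Pool.Agent.Y160.SQ.Defs
import Pool.Agent.TH115.GD.Defs

/-!
# The Tate conjecture at `p` for the surface `y ^ ℓ = f(x, t)`: definitions

`ℓ` is a power of the prime `p`, `k'` is a separable closure of `k`, `K = k(t)`, `F = k'(t)`, and
`f` is a polynomial over `K` of degree prime to `ℓ`. The curve `y ^ ℓ = f(x)` has one point at infinity, which is rational, so the
group `J(Ω)` of the points of its Jacobian over a separably closed field `Ω` is the Picard group of
the affine curve, `Pic(Ω[x, y] / (y ^ ℓ - f(x)))`.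
-/

set_option autoImplicit false
set_option linter.all false

open Polynomial IsDedekindDomain
open scoped Classical

namespace Pool.Agent.Y160.SQ

open Pool.Agent.TH115.GD (incl rs ak Sep Comp CompInf IsTower)

section jac

variable (ℓ : ℕ) {K Ω Ω' : Type} [Field K] [Field Ω] [Field Ω'] [Algebra K Ω] [Algebra K Ω']

/-- The group `J(Ω) = Pic(Ω[x, y] / (y ^ ℓ - f(x)))` over an extension `Ω` of `K`. -/
abbrev Jac (f : K[X]) (Ω : Type) [Field Ω] [Algebra K Ω] : Type :=
  Additive (CommRing.Pic (CR ℓ (f.map (algebraMap K Ω))))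

/-- The homomorphism `J(Ω) → J(Ω')` given by a `K`-homomorphism `φ : Ω → Ω'`. -/
noncomputable def jm (f : K[X]) (φ : Ω →ₐ[K] Ω') : Jac ℓ f Ω →+ Jac ℓ f Ω' :=
  MonoidHom.toAdditive (CommRing.Pic.mapRingHom (crMap ℓ (φ : Ω →+* Ω')
    (f.map (algebraMap K Ω)) (f.map (algebraMap K Ω'))
    (by rw [Polynomial.map_map, φ.comp_algebraMap])))

end jac

section cocycles

variable (p ℓ : ℕ) {K F Ω : Type} [Field K] [Field F] [Field Ω] [Algebra K F] [Algebra F Ω]
  [Algebra K Ω] [IsScalarTower K F Ω] (f : K[X])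

/-- Continuous 1-cocycles of `Gal(Ω / F)` with values in the discrete group `J(Ω)`. -/
structure IsCoc (c : (Ω ≃ₐ[F] Ω) → Jac ℓ f Ω) : Prop where
  lc : IsLocallyConstant c
  mul : ∀ σ τ, c (σ * τ) = c σ + jm ℓ f (rs K σ) (c τ)

/-- `Q` is an element of the Tate module `T_p J`: `Q 0 = 0`, `p Q (n + 1) = Q n`. -/
structure IsTM (Q : ℕ → Jac ℓ f Ω) : Prop where
  zero : Q 0 = 0
  step : ∀ n, p • Q (n + 1) = Q n

/-- `c` is a continuous 1-cocycle of `Gal(Ω / F)` with values in the Tate module `T_p J`: `c n` is a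
cocycle with values in the points of order `p ^ n`, and `p c (n + 1) = c n`. -/
structure IsTC (c : ℕ → (Ω ≃ₐ[F] Ω) → Jac ℓ f Ω) : Prop where
  coc : ∀ n, IsCoc ℓ f (c n)
  zero : ∀ σ, c 0 σ = 0
  step : ∀ n σ, p • c (n + 1) σ = c n σ

/-- The class of `c` in `H ^ 1 (F, V_p J)` is fixed by `Gal(Ω / K)`: for each `τ` in `Gal(Ω / K)`
there is an `m` such that `p ^ m (τ c - c)` is the coboundary of an element `Q` of the Tate module.
Here `(τ c) (σ) = τ (c (σ'))` with `σ' = τ⁻¹ σ τ`. -/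
def IsInv (c : ℕ → (Ω ≃ₐ[F] Ω) → Jac ℓ f Ω) : Prop :=
  ∀ τ : Ω ≃ₐ[K] Ω, ∃ (m : ℕ) (Q : ℕ → Jac ℓ f Ω), IsTM p ℓ f Q ∧
    ∀ (n : ℕ) (σ σ' : Ω ≃ₐ[F] Ω), (∀ x, τ (σ' x) = σ (τ x)) →
      p ^ m • (jm ℓ f (ak τ) (c n σ') - c n σ) = jm ℓ f (rs K σ) (Q n) - Q n

/-- `L` is an extension of `F` (a completion) and `Ω'` a separable closure of `L`. The restriction
of `c` to `Gal(Ω' / L)`, with values in `J(Ω')`, is a coboundary: for an embedding `ι : Ω → Ω'`
there is an element `P` of `J(Ω')` with `c(τ|Ω) = τ P - P` for all `τ` in `Gal(Ω' / L)`. -/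
def LocTriv (L Ω' : Type) [Field L] [Field Ω'] [Algebra K L] [Algebra L Ω'] [Algebra K Ω']
    [Algebra F Ω'] [IsScalarTower K L Ω'] [IsScalarTower K F Ω']
    (c : (Ω ≃ₐ[F] Ω) → Jac ℓ f Ω) : Prop :=
  ∃ (ι : Ω →ₐ[F] Ω') (P : Jac ℓ f Ω'), ∀ (τ : Ω' ≃ₐ[L] Ω') (σ : Ω ≃ₐ[F] Ω),
    (∀ x, τ (ι x) = ι (σ x)) →
      jm ℓ f (ι.restrictScalars K) (c σ) = jm ℓ f (rs K τ) P - P

end cocycles

section stmt

variable (p ℓ : ℕ) {K F : Type} [Field K] [Field F] [Algebra K F]

/-- A cochain of `Gal(Sep F / F)` with values in `J` is locally trivial if its restriction to the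
Galois group of the completion of `F = k'(t)` is a coboundary at every place of `F`: at the
maximal ideals of `k'[t]` and at the place `t = ∞`. -/
def LocallyTrivial (k' : Type) [Field k'] [Algebra k'[X] F] [IsFractionRing k'[X] F]
    (f : K[X]) (c : (Sep F ≃ₐ[F] Sep F) → Jac ℓ f (Sep F)) : Prop :=
  (∀ v : HeightOneSpectrum k'[X], LocTriv ℓ f (Comp k'[X] F v) (Sep (Comp k'[X] F v)) c) ∧
  LocTriv ℓ f (CompInf k' F) (Sep (CompInf k' F)) c

/-- The Tate conjecture at the prime `p` for the surface fibred over the projective line with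
generic fibre `y ^ ℓ = f(x)` over `K = k(t)`: the classes in `V_p Sel(J / F)`, `F = k'(t)`, which
are fixed by the Galois group, come from `J(K)`. If `c` is a cocycle of `Gal(Sep F / F)` with values
in `T_p J` which is everywhere locally trivial, and the class of `c` is fixed by the Galois group of
`K`, then for every `n` there are an element `P` of `J(K)` and `R` with `p ^ n R = P` such that
`c n σ = σ R - R` for all `σ`. -/
def TateAt (k' : Type) [Field k'] [Algebra k'[X] F] [IsFractionRing k'[X] F]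
    (f : K[X]) : Prop :=
  ∀ c : ℕ → (Sep F ≃ₐ[F] Sep F) → Jac ℓ f (Sep F), IsTC p ℓ f c →
    (∀ n, LocallyTrivial ℓ k' f (c n)) → IsInv p ℓ f c →
    ∀ n, ∃ (P : Jac ℓ f K) (R : Jac ℓ f (Sep F)), p ^ n • R = jm ℓ f (incl K K (Sep F)) P ∧
      ∀ σ, c n σ = jm ℓ f (rs K σ) R - R

end stmt

end Pool.Agent.Y160.SQ
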